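import Mathlib

/-!
# Hyperinvariant subspaces of bilateral shifts: definitions and module statements
-/

set_option autoImplicit false

namespace Pool.Agent.BShift

open scoped ENNReal

/-- `T` has a closed subspace, other than `0` and the whole space, which is invariant under every
bounded operator commuting with `T`. -/
def HasHIS {E : Type*} [NormedAddCommGroup E] [NormedSpace ℂ E] (T : E →L[ℂ] E) : Prop :=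
  ∃ M : Submodule ℂ E, IsClosed (M : Set E) ∧ M ≠ ⊥ ∧ M ≠ ⊤ ∧
    ∀ A : E →L[ℂ] E, A * T = T * A → ∀ x ∈ M, A x ∈ M

/-- Distance of `x` to `M ℤ`. -/
def dm (M x : ℤ) : ℤ := min (x % M) (M - x % M)

/-- The `4R`-periodic folding map, the identity on `[-R, R]`. -/
def fold (R n : ℤ) : ℤ := dm (4 * R) (n + R) - R

/-- The periodic weight. -/
noncomputable def pw (P : ℤ → ℝ) (R n : ℤ) : ℝ := P (fold R n)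

/-- The periodic function `1 + dist(n, 4R ℤ)`. -/
noncomputable def rho (R n : ℤ) : ℝ := 1 + (dm (4 * R) n : ℝ)

/-- M1: duality on a finite set of points. -/
def AbstractFinite : Prop :=
  ∀ (I E : Finset ℤ) (z : ℤ → ℂ) (ω : ℤ → ℝ) (i0 : ℤ) (ε : ℝ),
    Set.InjOn z (I : Set ℤ) → E ⊆ I → E.Nonempty → i0 ∈ I → i0 ∉ E →
    (∀ n ∈ I, 0 < ω n) → ω i0 = 1 → 0 < ε → ε ≤ 1 →
    ∃ (m : ℕ) (q : Polynomial ℂ) (g h : ℤ → ℂ),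
      q.degree < ((m + 1 : ℕ) : WithBot ℕ) ∧
      (∀ n ∈ I, n ∉ E → ‖q.eval (z n)‖ * ω n ≤ 1) ∧
      ε ≤ ‖q.eval (z i0)‖ ∧
      (∀ r : Polynomial ℂ, r.degree < ((m + E.card : ℕ) : WithBot ℕ) →
        ∑ x ∈ I, g x * r.eval (z x) = 0) ∧
      (∀ n ∈ I, n ∉ E → g n * ∏ e ∈ E, (z n - z e) = h n) ∧
      (∀ n ∈ I, n ∉ E → n ≠ i0 → ‖h n‖ ≤ ε * ω n) ∧
      ‖h i0 - 1‖ ≤ ε

/-- M2: geometry of the distance, the folding map and the roots of unity. -/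
structure Geometry : Prop where
  dm_nonneg : ∀ M x : ℤ, 0 < M → 0 ≤ dm M x
  dm_eq_abs : ∀ M x : ℤ, 0 < M → 2 * |x| ≤ M → dm M x = |x|
  dm_period : ∀ M x k : ℤ, dm M (x + k * M) = dm M x
  dm_lip : ∀ M x y : ℤ, 0 < M → |dm M x - dm M y| ≤ |x - y|
  dm_pos : ∀ M x : ℤ, 0 < M → ¬ M ∣ x → 1 ≤ dm M x
  fold_eq : ∀ R n : ℤ, 0 < R → |n| ≤ R → fold R n = n
  fold_lip : ∀ R m n : ℤ, 0 < R → |fold R m - fold R n| ≤ |m - n|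
  fold_period : ∀ R n k : ℤ, fold R (n + k * (4 * R)) = fold R n
  /-- Distances of roots of unity, from below. -/
  root_lower : ∀ (M : ℕ) (ζ : ℂ), 0 < M → ζ = Complex.exp (2 * Real.pi * Complex.I / M) →
    ∀ m n : ℤ, ‖ζ - 1‖ * dm M (m - n) ≤ 2 * ‖ζ ^ m - ζ ^ n‖
  /-- Distances of roots of unity, from above. -/
  root_upper : ∀ (M : ℕ) (ζ : ℂ), 0 < M → ζ = Complex.exp (2 * Real.pi * Complex.I / M) →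
    ∀ m n : ℤ, ‖ζ ^ m - ζ ^ n‖ ≤ ‖ζ - 1‖ * |((m - n : ℤ) : ℝ)|
  /-- The powers are distinct on a period. -/
  root_inj : ∀ (M : ℕ) (ζ : ℂ), 0 < M → ζ = Complex.exp (2 * Real.pi * Complex.I / M) →
    ∀ m n : ℤ, ζ ^ m = ζ ^ n ↔ (M : ℤ) ∣ (m - n)

/-- M3: the two functions at level `R`. -/
def LevelStmt : Prop :=
  ∀ E : Finset ℤ, (0 : ℤ) ∉ E → E.Nonempty → ∃ C : ℝ, 1 ≤ C ∧
    ∀ P : ℤ → ℝ, (∀ n, 0 < P n) → P 0 = 1 → ∀ ε : ℝ, 0 < ε → ε ≤ 1 / 2 →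
    ∀ R : ℤ, 0 < R → (∀ e ∈ E, |e| ≤ R) →
    ∃ (f g : ℤ → ℂ) (s : ℝ), 0 ≤ s ∧ s ≤ 1 ∧
      (∀ n, ‖f n‖ * (pw P R n * rho R n ^ 2) ≤ C) ∧
      ε ≤ ‖f 0‖ + ∑ e ∈ E, ‖f e‖ * P e ∧
      (∀ n ∈ Finset.Ico (-2 * R) (2 * R), n ∉ E → n ≠ 0 →
        ‖g n‖ * rho R n ^ E.card ≤ s * ε * C * (pw P R n * rho R n ^ 2)) ∧
      s ≤ C * ‖g 0‖ ∧ ‖g 0‖ ≤ C ∧
      (∀ e ∈ E, ‖g e‖ ≤ P e) ∧ 1 ≤ s + ∑ e ∈ E, ‖g e‖ / P e ∧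
      ∀ k : ℤ, ∑ x ∈ Finset.Ico (-2 * R) (2 * R), f (x - k) * g x = 0

/-- M4: the two sequences. -/
def PairStmt : Prop :=
  ∀ E : Finset ℤ, (0 : ℤ) ∉ E → 4 ≤ E.card → ∃ C : ℝ, 1 ≤ C ∧
    ∀ (P : ℤ → ℝ) (L : ℝ), (∀ n, 0 < P n) → P 0 = 1 →
    (∀ n, P (n + 1) ≤ L * P n) → (∀ n, P n ≤ L * P (n + 1)) →
    ∀ ε : ℝ, 0 < ε → ε ≤ 1 / 2 →
    ∃ f g : ℤ → ℂ, (∃ n, f n ≠ 0) ∧
      (∀ n : ℤ, ‖f n‖ * (P n * (1 + |(n : ℝ)|) ^ 2) ≤ C) ∧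
      (∀ k : ℤ, ∑' m : ℤ, f (m - k) * g m = 0) ∧
      (((∀ n, n ∉ E → g n = 0) ∧ ∃ e ∈ E, g e ≠ 0) ∨
        (g 0 = 1 ∧ ∀ n : ℤ, n ∉ E → n ≠ 0 →
          ‖g n‖ * (1 + |(n : ℝ)|) ^ E.card ≤ ε * C * (P n * (1 + |(n : ℝ)|) ^ 2)))

/-- M5: a hyperinvariant subspace from two sequences. -/
def PairHIS.{u} : Prop :=
  ∀ (X : Type u) [NormedAddCommGroup X] [NormedSpace ℂ X] [CompleteSpace X] (T : X →L[ℂ] X)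
    (u : ℤ → X) (v : ℤ → (X →L[ℂ] ℂ)) (f g : ℤ → ℂ),
    (∀ n, T (u n) = u (n + 1)) → (∀ n, (v (n + 1)).comp T = v n) →
    Summable (fun n => ‖f n‖ * ‖u n‖) → Summable (fun n => ‖g n‖ * ‖v n‖) →
    (∀ k : ℤ, ∑' m : ℤ, f (m - k) * g m = 0) →
    (∑' n : ℤ, f n • u n) ≠ 0 → (∑' n : ℤ, g n • v n) ≠ 0 → HasHIS T

/-- M6: a nonvanishing sum along a sequence of vectors. -/
def NonvanStmt.{u} : Prop :=
  ∀ (Y : Type u) [NormedAddCommGroup Y] [NormedSpace ℂ Y] [CompleteSpace Y]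
    (w : ℤ → Y) (P : ℤ → ℝ) (L C : ℝ) (k : ℕ),
    w 0 ≠ 0 → ¬ FiniteDimensional ℂ (Submodule.span ℂ (Set.range w)) →
    (∀ n, 0 < P n) → (∀ n, P (n + 1) ≤ L * P n) → (∀ n, P n ≤ L * P (n + 1)) →
    (∀ n : ℤ, ‖w n‖ * P n ≤ C * (1 + |(n : ℝ)|) ^ k) →
    ∃ f g : ℤ → ℂ, (∃ n, f n ≠ 0) ∧
      (∃ C' : ℝ, ∀ n : ℤ, ‖f n‖ * (P n * (1 + |(n : ℝ)|) ^ 2) ≤ C') ∧
      (∀ k : ℤ, ∑' m : ℤ, f (m - k) * g m = 0) ∧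
      Summable (fun n => ‖g n‖ * ‖w n‖) ∧ (∑' n : ℤ, g n • w n) ≠ 0

/-- M7: the criterion for two sided orbits, the orbit `u` being minimal. -/
def CriterionStmt.{u} : Prop :=
  ∀ (X : Type u) [NormedAddCommGroup X] [NormedSpace ℂ X] [CompleteSpace X] (T : X →L[ℂ] X)
    (u : ℤ → X) (v y : ℤ → (X →L[ℂ] ℂ)) (P : ℤ → ℝ) (L C : ℝ) (k : ℕ),
    (∀ n, T (u n) = u (n + 1)) → (∀ n, (v (n + 1)).comp T = v n) → v 0 ≠ 0 →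
    (∀ m n, y m (u n) = if m = n then 1 else 0) →
    (∀ n, 0 < P n) → (∀ n, P (n + 1) ≤ L * P n) → (∀ n, P n ≤ L * P (n + 1)) →
    (∀ n, ‖u n‖ ≤ P n) → (∀ n : ℤ, ‖v n‖ * P n ≤ C * (1 + |(n : ℝ)|) ^ k) → HasHIS T

/-- M7 (dual form): the orbit `v` being minimal. -/
def DualCriterionStmt.{u} : Prop :=
  ∀ (X : Type u) [NormedAddCommGroup X] [NormedSpace ℂ X] [CompleteSpace X] (T : X →L[ℂ] X)
    (u : ℤ → X) (v : ℤ → (X →L[ℂ] ℂ)) (y : ℤ → ((X →L[ℂ] ℂ) →L[ℂ] ℂ))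
    (P : ℤ → ℝ) (L C : ℝ) (k : ℕ),
    (∀ n, T (u n) = u (n + 1)) → (∀ n, (v (n + 1)).comp T = v n) → u 0 ≠ 0 →
    (∀ m n, y m (v n) = if m = n then 1 else 0) →
    (∀ n, 0 < P n) → (∀ n, P (n + 1) ≤ L * P n) → (∀ n, P n ≤ L * P (n + 1)) →
    (∀ n, ‖v n‖ ≤ P n) → (∀ n : ℤ, ‖u n‖ * P n ≤ C * (1 + |(n : ℝ)|) ^ k) → HasHIS T

/-- M8: operators acting as block shifts of finite multiplicity. -/
def BlockStmt.{u, v} : Prop :=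
  ∀ (X : Type u) [NormedAddCommGroup X] [NormedSpace ℂ X] [CompleteSpace X]
    (H : Type v) [NormedAddCommGroup H] [NormedSpace ℂ H] [FiniteDimensional ℂ H] [Nontrivial H]
    (T : X →L[ℂ] X) (i : ℤ → (H →L[ℂ] X)) (π : ℤ → (X →L[ℂ] H)) (W : ℤ → (H →L[ℂ] H)) (C : ℝ),
    (∀ n, ‖i n‖ ≤ C) → (∀ n, ‖π n‖ ≤ C) →
    (∀ n x, π n (i n x) = x) → (∀ m n, m ≠ n → ∀ x, π m (i n x) = 0) →
    (∀ n x, T (i n x) = i (n + 1) (W n x)) → (∀ n x, π (n + 1) (T x) = W n (π n x)) →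
    T ≠ 0 → HasHIS T

/-- M9: operator weighted bilateral shifts of finite multiplicity on `ℓ^p`. -/
def LpStmt.{v} : Prop :=
  ∀ (p : ℝ≥0∞) [Fact (1 ≤ p)]
    (H : Type v) [NormedAddCommGroup H] [NormedSpace ℂ H] [FiniteDimensional ℂ H]
    (W : ℤ → (H →L[ℂ] H)) (T : lp (fun _ : ℤ => H) p →L[ℂ] lp (fun _ : ℤ => H) p),
    (∀ x n, T x (n + 1) = W n (x n)) → T ≠ 0 → HasHIS T

/-- M9: invertible operators. -/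
def InvertibleStmt.{u} : Prop :=
  ∀ (X : Type u) [NormedAddCommGroup X] [NormedSpace ℂ X] [CompleteSpace X] (T : X ≃L[ℂ] X)
    (u : X) (v : X →L[ℂ] ℂ) (C : ℝ) (k : ℕ), u ≠ 0 → v ≠ 0 →
    (u ∉ (Submodule.span ℂ {x | ∃ n : ℤ, n ≠ 0 ∧ x = (T ^ n) u}).topologicalClosure ∨
      v ∉ (Submodule.span ℂ {w | ∃ n : ℤ, n ≠ 0 ∧
        w = v.comp ((T ^ n : X ≃L[ℂ] X) : X →L[ℂ] X)}).topologicalClosure) →
    (∀ n : ℤ, ‖(T ^ n) u‖ * ‖v.comp ((T ^ (-n) : X ≃L[ℂ] X) : X →L[ℂ] X)‖ ≤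
      C * (1 + |(n : ℝ)|) ^ k) →
    HasHIS (T : X →L[ℂ] X)

end Pool.Agent.BShift
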