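import Pool.Agent.Lib_helper94.BShift.Defs

/-!
# Hyperinvariant subspaces of block shifts of finite multiplicity (module M8)
-/

set_option autoImplicit false

namespace Pool.Agent.BShift

universe u v

section General

variable {E : Type*} [NormedAddCommGroup E] [NormedSpace ℂ E]

/-- A nonzero operator with a nontrivial kernel has a hyperinvariant subspace. -/
theorem hasHIS_of_ker (T : E →L[ℂ] E) (x : E) (hx : x ≠ 0) (h0 : T x = 0) (hT : T ≠ 0) :
    HasHIS T := by
  refine ⟨LinearMap.ker (T : E →ₗ[ℂ] E), T.isClosed_ker, ?_, ?_, ?_⟩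
  · intro h
    apply hx
    have : x ∈ LinearMap.ker (T : E →ₗ[ℂ] E) := by
      rw [LinearMap.mem_ker]; exact h0
    rw [h] at this
    exact (Submodule.mem_bot ℂ).1 this
  · intro h
    apply hT
    ext y
    have : y ∈ LinearMap.ker (T : E →ₗ[ℂ] E) := by rw [h]; exact Submodule.mem_top
    rw [LinearMap.mem_ker] at this
    simpa using this
  · intro A hA y hy
    rw [LinearMap.mem_ker] at hy ⊢
    have h1 : (A * T) y = (T * A) y := by rw [hA]
    simp only [mul_apply_eq_comp] at h1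
    have h2 : T y = 0 := hy
    rw [h2, map_zero] at h1
    exact h1.symm

/-- The orbit of a vector under the commutant. -/
def orb (T : E →L[ℂ] E) (e : E) : Submodule ℂ E where
  carrier := {x | ∃ A : E →L[ℂ] E, A * T = T * A ∧ A e = x}
  add_mem' := by
    rintro a b ⟨A, hA, rfl⟩ ⟨B, hB, rfl⟩
    exact ⟨A + B, by rw [add_mul, mul_add, hA, hB], by simp⟩
  zero_mem' := ⟨0, by simp, by simp⟩
  smul_mem' := by
    rintro c x ⟨A, hA, rfl⟩
    exact ⟨c • A, by rw [smul_mul_assoc, mul_smul_comm, hA], by simp⟩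

theorem mem_orb (T : E →L[ℂ] E) (e x : E) :
    x ∈ orb T e ↔ ∃ A : E →L[ℂ] E, A * T = T * A ∧ A e = x := Iff.rfl

theorem closure_orb (T : E →L[ℂ] E) (hT : ¬ HasHIS T) (e : E) (he : e ≠ 0) :
    (orb T e).topologicalClosure = ⊤ := by
  by_contra hne
  apply hT
  refine ⟨(orb T e).topologicalClosure, Submodule.isClosed_topologicalClosure _, ?_, hne, ?_⟩
  · intro h
    apply he
    have h1 : e ∈ (orb T e).topologicalClosure :=
      Submodule.le_topologicalClosure _ ((mem_orb T e e).2 ⟨1, by simp, by simp⟩)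
    rw [h] at h1
    exact (Submodule.mem_bot ℂ).1 h1
  · intro A hA x hx
    have hx' : x ∈ closure (orb T e : Set E) := hx
    have : A x ∈ closure (orb T e : Set E) := by
      refine map_mem_closure A.continuous hx' ?_
      rintro y ⟨B, hB, rfl⟩
      refine ⟨A * B, ?_, rfl⟩
      rw [mul_assoc, hB, ← mul_assoc, hA, mul_assoc]
    exact this

theorem exists_cocycle {G : Type*} [Group G] (w : ℤ → G) :
    ∃ U : ℤ → G, U 0 = 1 ∧ ∀ n, U (n + 1) = w n * U n := by
  let Up : ℕ → G := fun n => Nat.rec 1 (fun k g => w k * g) n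
  let Un : ℕ → G := fun n => Nat.rec 1 (fun k g => (w (Int.negSucc k))⁻¹ * g) n
  have hUp0 : Up 0 = 1 := rfl
  have hUp : ∀ n : ℕ, Up (n + 1) = w n * Up n := fun _ => rfl
  have hUn0 : Un 0 = 1 := rfl
  have hUn : ∀ n : ℕ, Un (n + 1) = (w (Int.negSucc n))⁻¹ * Un n := fun _ => rfl
  let U : ℤ → G := fun n => match n with
    | Int.ofNat k => Up k
    | Int.negSucc k => Un (k + 1)
  refine ⟨U, rfl, ?_⟩
  intro n
  rcases n with k | k
  · exact hUp k
  · have h2 : U (Int.negSucc k) = Un (k + 1) := rfl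
    rw [h2, hUn, mul_inv_cancel_left]
    cases k with
    | zero => exact hUn0.symm ▸ rfl
    | succ m =>
      have : (Int.negSucc (m + 1) + 1 : ℤ) = Int.negSucc m := by
        rw [Int.negSucc_eq, Int.negSucc_eq]; push_cast; ring
      rw [this]

end General

section Weighted

variable {H : Type v} [NormedAddCommGroup H] [NormedSpace ℂ H]

/-- `B` conjugated by the cocycle: `U_{n+j} B U_n⁻¹`. -/
noncomputable def conj (U : ℤ → (H ≃L[ℂ] H)) (j : ℤ) (B : H →L[ℂ] H) (n : ℤ) : H →L[ℂ] H :=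
  ((U (n + j) : H →L[ℂ] H).comp B).comp ((U n).symm : H →L[ℂ] H)

theorem conj_apply (U : ℤ → (H ≃L[ℂ] H)) (j : ℤ) (B : H →L[ℂ] H) (n : ℤ) (x : H) :
    conj U j B n x = U (n + j) (B ((U n).symm x)) := rfl

/-- The operators which extend to bounded block shifts of degree `j`. -/
def Dj (U : ℤ → (H ≃L[ℂ] H)) (j : ℤ) (B : H →L[ℂ] H) : Prop :=
  ∃ K : ℝ, ∀ n : ℤ, ‖conj U j B n‖ ≤ K

theorem Dj_mul (U : ℤ → (H ≃L[ℂ] H)) (i j k : ℤ) (hk : i + j = k) (A B : H →L[ℂ] H)
    (hA : Dj U i A) (hB : Dj U j B) : Dj U k (A.comp B) := by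
  obtain ⟨K, hK⟩ := hA
  obtain ⟨L, hL⟩ := hB
  refine ⟨K * L, fun n => ?_⟩
  have h1 : conj U k (A.comp B) n = (conj U i A (n + j)).comp (conj U j B n) := by
    ext x
    simp only [conj_apply, ContinuousLinearMap.comp_apply, ContinuousLinearEquiv.symm_apply_apply]
    rw [← hk, show n + (i + j) = n + j + i by ring]
  rw [h1]
  refine (ContinuousLinearMap.opNorm_comp_le _ _).trans ?_
  exact mul_le_mul (hK _) (hL _) (norm_nonneg _) ((norm_nonneg _).trans (hK 0))

theorem Dj_sub (U : ℤ → (H ≃L[ℂ] H)) (j : ℤ) (A B : H →L[ℂ] H)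
    (hA : Dj U j A) (hB : Dj U j B) : Dj U j (A - B) := by
  obtain ⟨K, hK⟩ := hA
  obtain ⟨L, hL⟩ := hB
  refine ⟨K + L, fun n => ?_⟩
  have h1 : conj U j (A - B) n = conj U j A n - conj U j B n := by
    ext x
    simp only [conj_apply, _root_.sub_apply, map_sub]
  rw [h1]
  exact (norm_sub_le _ _).trans (add_le_add (hK n) (hL n))

theorem Dj_smul (U : ℤ → (H ≃L[ℂ] H)) (j : ℤ) (c : ℂ) (A : H →L[ℂ] H)
    (hA : Dj U j A) : Dj U j (c • A) := by
  obtain ⟨K, hK⟩ := hA
  refine ⟨‖c‖ * K, fun n => ?_⟩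
  have h1 : conj U j (c • A) n = c • conj U j A n := by
    ext x
    simp only [conj_apply, _root_.smul_apply, map_smul]
  rw [h1, norm_smul]
  exact mul_le_mul_of_nonneg_left (hK n) (norm_nonneg _)

theorem Dj_one (U : ℤ → (H ≃L[ℂ] H)) : Dj U 0 (ContinuousLinearMap.id ℂ H) := by
  refine ⟨1, fun n => ?_⟩
  have h1 : conj U 0 (ContinuousLinearMap.id ℂ H) n = ContinuousLinearMap.id ℂ H := by
    ext x
    simp only [conj_apply, ContinuousLinearMap.id_apply, add_zero,
      ContinuousLinearEquiv.apply_symm_apply]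
  rw [h1]
  exact ContinuousLinearMap.norm_id_le

/-- The algebra: transitive families contain a rank one idempotent. -/
theorem exists_rank_one [FiniteDimensional ℂ H] [Nontrivial H] (U : ℤ → (H ≃L[ℂ] H))
    (htr : ∀ (j : ℤ) (x y : H), x ≠ 0 → ∃ B : H →L[ℂ] H, Dj U j B ∧ B x = y) :
    ∃ (a : H) (b : H →L[ℂ] ℂ), b a = 1 ∧ Dj U 0 (ContinuousLinearMap.smulRight b a) := by
  -- a nonzero element with a maximal kernel
  let 𝒮 : Set (Submodule ℂ H) :=
    {M | ∃ B : H →L[ℂ] H, Dj U 0 B ∧ B ≠ 0 ∧ LinearMap.ker (B : H →ₗ[ℂ] H) = M}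
  have hne : 𝒮.Nonempty := by
    refine ⟨_, ContinuousLinearMap.id ℂ H, Dj_one U, ?_, rfl⟩
    intro h
    obtain ⟨x, hx⟩ := exists_ne (0 : H)
    apply hx
    have : (ContinuousLinearMap.id ℂ H) x = (0 : H →L[ℂ] H) x := by rw [h]
    simpa using this
  obtain ⟨M, ⟨B, hB, hB0, rfl⟩, hmax⟩ :=
    (wellFounded_gt (α := Submodule ℂ H)).has_min 𝒮 hne
  -- `B S B` is a multiple of `B`
  have hmul : ∀ S : H →L[ℂ] H, Dj U 0 S → ∃ c : ℂ, ∀ z, B (S (B z)) = c • B z := by
    intro S hS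
    let R := LinearMap.range (B : H →ₗ[ℂ] H)
    have hR : Nontrivial R := by
      obtain ⟨x, hx⟩ : ∃ x, B x ≠ 0 := by
        by_contra hcon
        push Not at hcon
        exact hB0 (by ext x; simpa using hcon x)
      exact ⟨⟨⟨B x, ⟨x, rfl⟩⟩, 0, fun h => hx (congrArg Subtype.val h)⟩⟩
    let f : Module.End ℂ R := ((B.comp S : H →L[ℂ] H) : H →ₗ[ℂ] H).restrict (p := R) (q := R)
      (fun x _ => ⟨S x, rfl⟩)
    obtain ⟨c, hc⟩ := Module.End.exists_eigenvalue f
    obtain ⟨v, hv⟩ := hc.exists_hasEigenvector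
    refine ⟨c, ?_⟩
    obtain ⟨⟨v, z, hz⟩, hv⟩ : ∃ v, f.HasEigenvector c v := ⟨v, hv⟩
    have hv1 := hv.apply_eq_smul
    have hv2 := hv.2
    have hv3 : B (S v) = c • v := congrArg Subtype.val hv1
    have hv4 : v ≠ 0 := fun h => hv2 (Subtype.ext h)
    have hz' : B z = v := hz
    let B1 : H →L[ℂ] H := (B.comp S).comp B - c • B
    have hB1 : Dj U 0 B1 := by
      refine Dj_sub _ _ _ _ ?_ (Dj_smul _ _ _ _ hB)
      exact Dj_mul U 0 0 0 rfl _ _ (Dj_mul U 0 0 0 rfl _ _ hB hS) hB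
    have hB1z : B1 = 0 := by
      by_contra hcon
      refine hmax _ ⟨B1, hB1, hcon, rfl⟩ ?_
      refine lt_of_le_of_ne ?_ ?_
      · intro x hx
        rw [LinearMap.mem_ker] at hx ⊢
        have hx' : B x = 0 := hx
        show B1 x = 0
        simp [B1, hx']
      · intro h
        have h1 : z ∈ LinearMap.ker (B1 : H →ₗ[ℂ] H) := by
          rw [LinearMap.mem_ker]
          show B1 z = 0
          simp only [B1, _root_.sub_apply, ContinuousLinearMap.comp_apply,
            _root_.smul_apply, hz', hv3, sub_self]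
        rw [← h, LinearMap.mem_ker] at h1
        exact hv4 (hz'.symm.trans h1)
    intro z
    have h1 : B1 z = 0 := by rw [hB1z]; rfl
    simpa [B1, sub_eq_zero] using h1
  obtain ⟨x, hx⟩ : ∃ x, B x ≠ 0 := by
    by_contra hcon
    push Not at hcon
    exact hB0 (by ext x; simpa using hcon x)
  obtain ⟨φ, hφ⟩ := SeparatingDual.exists_eq_one (R := ℂ) hx
  have hBy : ∀ y, B y = φ (B y) • B x := by
    intro y
    obtain ⟨S, hS, hSa⟩ := htr 0 (B x) y hx
    obtain ⟨c, hc⟩ := hmul S hS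
    have h1 := hc x
    rw [hSa] at h1
    have h2 : φ (B y) = c := by rw [h1, map_smul, hφ, smul_eq_mul, mul_one]
    rw [h2, ← h1]
  obtain ⟨S, hS, hSa⟩ := htr 0 (B x) x hx
  refine ⟨B x, (φ.comp B).comp S, ?_, ?_⟩
  · simp only [ContinuousLinearMap.comp_apply, hSa, hφ]
  · have h1 : ContinuousLinearMap.smulRight ((φ.comp B).comp S) (B x) = B.comp S := by
      ext y
      simp only [ContinuousLinearMap.smulRight_apply, ContinuousLinearMap.comp_apply]
      exact (hBy (S y)).symm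
    rw [h1]
    exact Dj_mul U 0 0 0 rfl _ _ hB hS

/-- A rank one operator in two classes makes the orbit of the vector grow regularly. -/
theorem Dj_rank_one (U : ℤ → (H ≃L[ℂ] H)) (j : ℤ) (a : H) (b : H →L[ℂ] ℂ)
    (h : Dj U j (ContinuousLinearMap.smulRight b a)) :
    ∃ K : ℝ, ∀ n : ℤ, ‖b.comp ((U n).symm : H →L[ℂ] H)‖ * ‖U (n + j) a‖ ≤ K := by
  obtain ⟨K, hK⟩ := h
  refine ⟨K, fun n => ?_⟩
  have h1 : conj U j (ContinuousLinearMap.smulRight b a) n =
      ContinuousLinearMap.smulRight (b.comp ((U n).symm : H →L[ℂ] H)) (U (n + j) a) := by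
    ext x
    simp only [conj_apply, ContinuousLinearMap.smulRight_apply, map_smul,
      ContinuousLinearMap.comp_apply]
    rfl
  have h2 := hK n
  rwa [h1, ContinuousLinearMap.norm_smulRight_apply] at h2

end Weighted

/-- The commutant of a block shift with invertible weights acts transitively. -/
theorem transitive_of_not_HIS {X : Type u} [NormedAddCommGroup X] [NormedSpace ℂ X]
    {H : Type v} [NormedAddCommGroup H] [NormedSpace ℂ H] [FiniteDimensional ℂ H]
    (T : X →L[ℂ] X) (i : ℤ → (H →L[ℂ] X)) (π : ℤ → (X →L[ℂ] H)) (W : ℤ → (H →L[ℂ] H)) (C : ℝ)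
    (hi : ∀ n, ‖i n‖ ≤ C) (hπ : ∀ n, ‖π n‖ ≤ C) (hπi : ∀ n x, π n (i n x) = x)
    (hTi : ∀ n x, T (i n x) = i (n + 1) (W n x)) (hπT : ∀ n x, π (n + 1) (T x) = W n (π n x))
    (U : ℤ → (H ≃L[ℂ] H)) (hU0 : U 0 = 1) (hU : ∀ n x, U (n + 1) x = W n (U n x))
    (hT : ¬ HasHIS T) (j : ℤ) (x y : H) (hx : x ≠ 0) :
    ∃ B : H →L[ℂ] H, Dj U j B ∧ B x = y := by
  have hU0' : ∀ z, U 0 z = z := fun z => by rw [hU0]; rfl
  -- density of the orbit
  have he : i 0 x ≠ 0 := by
    intro h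
    apply hx
    have := hπi 0 x
    rw [h, map_zero] at this
    exact this.symm
  have hcl := closure_orb T hT (i 0 x) he
  let L : X →L[ℂ] H := ((U j).symm : H →L[ℂ] H).comp (π j)
  have hL : ∀ z, L z = (U j).symm (π j z) := fun _ => rfl
  have hmem : y ∈ (orb T (i 0 x)).map (L : X →ₗ[ℂ] H) := by
    have hc : IsClosed (((orb T (i 0 x)).map (L : X →ₗ[ℂ] H) : Submodule ℂ H) : Set H) :=
      Submodule.closed_of_finiteDimensional _
    have h1 : i j (U j y) ∈ closure (orb T (i 0 x) : Set X) := by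
      have : i j (U j y) ∈ (orb T (i 0 x)).topologicalClosure := by
        rw [hcl]; exact Submodule.mem_top
      exact this
    have h2 : L (i j (U j y)) ∈
        closure (((orb T (i 0 x)).map (L : X →ₗ[ℂ] H) : Submodule ℂ H) : Set H) := by
      refine map_mem_closure L.continuous h1 ?_
      intro z hz
      exact ⟨z, hz, rfl⟩
    rw [hc.closure_eq] at h2
    have h3 : L (i j (U j y)) = y := by
      rw [hL, hπi, ContinuousLinearEquiv.symm_apply_apply]
    rwa [h3] at h2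
  obtain ⟨z, ⟨A, hA, rfl⟩, hy⟩ := hmem
  refine ⟨L.comp (A.comp (i 0)), ?_, hy⟩
  -- commuting with `T`
  have hAT : ∀ z, A (T z) = T (A z) := by
    intro z
    have h1 : (A * T) z = (T * A) z := by rw [hA]
    simpa only [mul_apply_eq_comp] using h1
  -- the coefficients of `A`
  have hstep : ∀ (n : ℤ) (z : H), (U (n + 1 + j)).symm (π (n + 1 + j) (A (i (n + 1) (U (n + 1) z)))) =
      (U (n + j)).symm (π (n + j) (A (i n (U n z)))) := by
    intro n z
    rw [hU, ← hTi, hAT, show n + 1 + j = n + j + 1 by ring, hπT]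
    rw [ContinuousLinearEquiv.symm_apply_eq, hU, ContinuousLinearEquiv.apply_symm_apply]
  have hall : ∀ (n : ℤ) (z : H), (U (n + j)).symm (π (n + j) (A (i n (U n z)))) =
      L (A (i 0 z)) := by
    intro n z
    induction n using Int.induction_on with
    | zero => rw [hL, hU0', zero_add]
    | succ m ih => rw [hstep]; exact ih
    | pred m ih =>
      rw [← ih]
      have := hstep (-(m : ℤ) - 1) z
      rw [show -(m : ℤ) - 1 + 1 = -(m : ℤ) by ring] at this
      exact this.symm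
  refine ⟨C * (‖A‖ * C), fun n => ?_⟩
  have h1 : conj U j (L.comp (A.comp (i 0))) n = (π (n + j)).comp (A.comp (i n)) := by
    ext z
    rw [conj_apply]
    simp only [ContinuousLinearMap.comp_apply]
    rw [← hall n ((U n).symm z), ContinuousLinearEquiv.apply_symm_apply,
      ContinuousLinearEquiv.apply_symm_apply]
  have hC : 0 ≤ C := (norm_nonneg _).trans (hi 0)
  rw [h1]
  refine (ContinuousLinearMap.opNorm_comp_le _ _).trans ?_
  refine mul_le_mul (hπ _) ?_ (norm_nonneg _) hC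
  refine (ContinuousLinearMap.opNorm_comp_le _ _).trans ?_
  exact mul_le_mul_of_nonneg_left (hi n) (norm_nonneg _)

theorem block (h : CriterionStmt.{u}) : BlockStmt.{u, v} := by
  intro X _ _ _ H _ _ _ _ T i π W C hi hπ hπi hπi0 hTi hπT hT0
  by_contra hT
  have hC : 0 ≤ C := (norm_nonneg _).trans (hi 0)
  -- the weights are injective
  have hinj : ∀ n, Function.Injective (W n : H →ₗ[ℂ] H) := by
    intro n
    rw [← LinearMap.ker_eq_bot, LinearMap.ker_eq_bot']
    intro x hx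
    by_contra hx0
    apply hT
    refine hasHIS_of_ker T (i n x) ?_ ?_ hT0
    · intro h0
      apply hx0
      have := hπi n x
      rw [h0, map_zero] at this
      exact this.symm
    · rw [hTi, show W n x = 0 from hx, map_zero]
  let w : ℤ → (H ≃L[ℂ] H) := fun n =>
    (LinearEquiv.ofInjectiveEndo (W n : H →ₗ[ℂ] H) (hinj n)).toContinuousLinearEquiv
  have hw : ∀ n x, w n x = W n x := fun n x => rfl
  obtain ⟨U, hU0, hU1⟩ := exists_cocycle w
  have hU : ∀ n x, U (n + 1) x = W n (U n x) := by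
    intro n x
    rw [hU1]
    rfl
  have htr : ∀ (j : ℤ) (x y : H), x ≠ 0 → ∃ B : H →L[ℂ] H, Dj U j B ∧ B x = y :=
    fun j x y hx => transitive_of_not_HIS T i π W C hi hπ hπi hTi hπT U hU0 hU hT j x y hx
  obtain ⟨a, b, hba, hb⟩ := exists_rank_one U htr
  have ha : a ≠ 0 := by
    intro h0
    rw [h0, map_zero] at hba
    exact zero_ne_one hba
  have hb1 : Dj U (-1) (ContinuousLinearMap.smulRight b a) := by
    obtain ⟨S, hS, hSa⟩ := htr (-1) a a ha
    have h1 : ContinuousLinearMap.smulRight b a =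
        ((ContinuousLinearMap.smulRight b a).comp S).comp
          (ContinuousLinearMap.smulRight b a) := by
      ext z
      simp only [ContinuousLinearMap.smulRight_apply, ContinuousLinearMap.comp_apply, map_smul,
        hSa, hba, one_smul]
    rw [h1]
    exact Dj_mul U (-1) 0 (-1) (by norm_num) _ _
      (Dj_mul U 0 (-1) (-1) (by norm_num) _ _ hb hS) hb
  obtain ⟨K0, hK0⟩ := Dj_rank_one U 0 a b hb
  obtain ⟨K1, hK1⟩ := Dj_rank_one U (-1) a b hb1
  have hUa : ∀ n, 0 < ‖U n a‖ := by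
    intro n
    rw [norm_pos_iff]
    intro h0
    exact ha ((U n).map_eq_zero_iff.1 h0)
  -- lower bound for the functional
  have hlow : ∀ n, 1 ≤ ‖b.comp ((U n).symm : H →L[ℂ] H)‖ * ‖U n a‖ := by
    intro n
    have h1 : (b.comp ((U n).symm : H →L[ℂ] H)) (U n a) = 1 := by
      rw [ContinuousLinearMap.comp_apply]
      show b ((U n).symm (U n a)) = 1
      rw [ContinuousLinearEquiv.symm_apply_apply, hba]
    have h2 := (b.comp ((U n).symm : H →L[ℂ] H)).le_opNorm (U n a)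
    rwa [h1, norm_one] at h2
  have hWn : ∀ n x, ‖W n x‖ ≤ C * (‖T‖ * C) * ‖x‖ := by
    intro n x
    have h1 : W n x = π (n + 1) (T (i n x)) := by rw [hπT, hπi]
    rw [h1]
    calc ‖π (n + 1) (T (i n x))‖ ≤ ‖π (n + 1)‖ * ‖T (i n x)‖ := (π (n + 1)).le_opNorm _
      _ ≤ C * ‖T (i n x)‖ := mul_le_mul_of_nonneg_right (hπ _) (norm_nonneg _)
      _ ≤ C * (‖T‖ * ‖i n x‖) := mul_le_mul_of_nonneg_left (T.le_opNorm _) hC
      _ ≤ C * (‖T‖ * (C * ‖x‖)) := by
        refine mul_le_mul_of_nonneg_left ?_ hC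
        refine mul_le_mul_of_nonneg_left ?_ (norm_nonneg _)
        exact ((i n).le_opNorm _).trans (mul_le_mul_of_nonneg_right (hi n) (norm_nonneg _))
      _ = C * (‖T‖ * C) * ‖x‖ := by ring
  let c0 : ℝ := max C 1
  have hc0 : 1 ≤ c0 := le_max_right _ _
  have hc0C : C ≤ c0 := le_max_left _ _
  have hc0' : 0 < c0 := lt_of_lt_of_le one_pos hc0
  let P : ℤ → ℝ := fun n => c0 * ‖U n a‖
  let vv : ℤ → (X →L[ℂ] ℂ) := fun n => (b.comp ((U n).symm : H →L[ℂ] H)).comp (π n)
  have hvv : ∀ n z, vv n z = b ((U n).symm (π n z)) := fun _ _ => rfl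
  have hvvu : ∀ m n, vv m (i n (U n a)) = if m = n then 1 else 0 := by
    intro m n
    rw [hvv]
    split_ifs with hmn
    · subst hmn
      rw [hπi, ContinuousLinearEquiv.symm_apply_apply, hba]
    · rw [hπi0 m n hmn, map_zero, map_zero]
  apply hT
  refine h X T (fun n => i n (U n a)) vv vv P (max (C * (‖T‖ * C)) K1) (C * c0 * K0) 0
    ?_ ?_ ?_ hvvu ?_ ?_ ?_ ?_ ?_
  · intro n
    show T (i n (U n a)) = i (n + 1) (U (n + 1) a)
    rw [hTi, hU]
  · intro n
    ext z
    rw [ContinuousLinearMap.comp_apply, hvv, hvv, hπT]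
    congr 1
    rw [ContinuousLinearEquiv.symm_apply_eq, hU, ContinuousLinearEquiv.apply_symm_apply]
  · intro h0
    have h1 := hvvu 0 0
    rw [h0] at h1
    simp at h1
  · intro n
    exact mul_pos hc0' (hUa n)
  · intro n
    show c0 * ‖U (n + 1) a‖ ≤ max (C * (‖T‖ * C)) K1 * (c0 * ‖U n a‖)
    rw [hU]
    calc c0 * ‖W n (U n a)‖ ≤ c0 * (C * (‖T‖ * C) * ‖U n a‖) :=
          mul_le_mul_of_nonneg_left (hWn n _) hc0'.le
      _ = (C * (‖T‖ * C)) * (c0 * ‖U n a‖) := by ring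
      _ ≤ max (C * (‖T‖ * C)) K1 * (c0 * ‖U n a‖) :=
          mul_le_mul_of_nonneg_right (le_max_left _ _) (mul_pos hc0' (hUa n)).le
  · intro n
    show c0 * ‖U n a‖ ≤ max (C * (‖T‖ * C)) K1 * (c0 * ‖U (n + 1) a‖)
    have h1 := hK1 (n + 1)
    rw [show n + 1 + -1 = n by ring] at h1
    have h2 := hlow (n + 1)
    have h3 : ‖U n a‖ ≤ K1 * ‖U (n + 1) a‖ := by
      calc ‖U n a‖ = 1 * ‖U n a‖ := (one_mul _).symm
        _ ≤ (‖b.comp ((U (n + 1)).symm : H →L[ℂ] H)‖ * ‖U (n + 1) a‖) * ‖U n a‖ :=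
            mul_le_mul_of_nonneg_right h2 (norm_nonneg _)
        _ = (‖b.comp ((U (n + 1)).symm : H →L[ℂ] H)‖ * ‖U n a‖) * ‖U (n + 1) a‖ := by ring
        _ ≤ K1 * ‖U (n + 1) a‖ := mul_le_mul_of_nonneg_right h1 (norm_nonneg _)
    calc c0 * ‖U n a‖ ≤ c0 * (K1 * ‖U (n + 1) a‖) := mul_le_mul_of_nonneg_left h3 hc0'.le
      _ = K1 * (c0 * ‖U (n + 1) a‖) := by ring
      _ ≤ max (C * (‖T‖ * C)) K1 * (c0 * ‖U (n + 1) a‖) :=
          mul_le_mul_of_nonneg_right (le_max_right _ _) (mul_pos hc0' (hUa _)).le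
  · intro n
    show ‖i n (U n a)‖ ≤ c0 * ‖U n a‖
    exact ((i n).le_opNorm _).trans
      (mul_le_mul_of_nonneg_right ((hi n).trans hc0C) (norm_nonneg _))
  · intro n
    rw [pow_zero, mul_one]
    show ‖(b.comp ((U n).symm : H →L[ℂ] H)).comp (π n)‖ * (c0 * ‖U n a‖) ≤ C * c0 * K0
    have h1 := hK0 n
    rw [add_zero] at h1
    have h2 : ‖(b.comp ((U n).symm : H →L[ℂ] H)).comp (π n)‖ ≤
        ‖b.comp ((U n).symm : H →L[ℂ] H)‖ * C :=
      (ContinuousLinearMap.opNorm_comp_le _ _).trans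
        (mul_le_mul_of_nonneg_left (hπ n) (norm_nonneg _))
    calc ‖(b.comp ((U n).symm : H →L[ℂ] H)).comp (π n)‖ * (c0 * ‖U n a‖)
        ≤ (‖b.comp ((U n).symm : H →L[ℂ] H)‖ * C) * (c0 * ‖U n a‖) :=
          mul_le_mul_of_nonneg_right h2 (mul_pos hc0' (hUa n)).le
      _ = C * c0 * (‖b.comp ((U n).symm : H →L[ℂ] H)‖ * ‖U n a‖) := by ring
      _ ≤ C * c0 * K0 := mul_le_mul_of_nonneg_left h1 (mul_nonneg hC hc0'.le)

end Pool.Agent.BShift
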