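import Mathlib
import Pool.Agent.Lib_helper94.BShift.Defs

/-!
# Hyperinvariant subspaces of bilateral shifts: the two criteria (M7)
-/

set_option autoImplicit false

namespace Pool.Agent.BShift

open scoped ENNReal

universe u

/-- An eigenvector in a finite dimensional span. -/
theorem exists_eigen_of_span {Y : Type*} [AddCommGroup Y] [Module ℂ Y] (S : Y →ₗ[ℂ] Y)
    (w : ℤ → Y) (h0 : w 0 ≠ 0) (hS : ∀ n, ∃ m, S (w n) = w m)
    (hfin : FiniteDimensional ℂ (Submodule.span ℂ (Set.range w))) :
    ∃ (c : ℂ) (x : Y), x ≠ 0 ∧ S x = c • x := by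
  have hmaps : ∀ x ∈ Submodule.span ℂ (Set.range w), S x ∈ Submodule.span ℂ (Set.range w) := by
    intro x hx
    have h1 : Submodule.span ℂ (Set.range w) ≤
        (Submodule.span ℂ (Set.range w)).comap S := by
      rw [Submodule.span_le]
      rintro _ ⟨n, rfl⟩
      obtain ⟨m, hm⟩ := hS n
      show S (w n) ∈ Submodule.span ℂ (Set.range w)
      rw [hm]
      exact Submodule.subset_span ⟨m, rfl⟩
    exact h1 hx
  have : Nontrivial (Submodule.span ℂ (Set.range w)) := by
    refine ⟨⟨⟨w 0, Submodule.subset_span ⟨0, rfl⟩⟩, 0, ?_⟩⟩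
    intro h
    exact h0 (congrArg Subtype.val h)
  obtain ⟨c, hc⟩ := Module.End.exists_eigenvalue (S.restrict hmaps)
  obtain ⟨x, hx⟩ := hc.exists_hasEigenvector
  refine ⟨c, (x : Y), ?_, ?_⟩
  · intro h
    exact hx.2 (Subtype.ext h)
  · have := hx.apply_eq_smul
    have h2 := congrArg Subtype.val this
    simpa using h2

/-- Summability from a weighted bound. -/
theorem summable_of_weight {Z : Type*} [NormedAddCommGroup Z] (f : ℤ → ℂ) (z : ℤ → Z) (P : ℤ → ℝ)
    (C : ℝ) (hz : ∀ n, ‖z n‖ ≤ P n)
    (hf : ∀ n : ℤ, ‖f n‖ * (P n * (1 + |(n : ℝ)|) ^ 2) ≤ C) :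
    Summable (fun n => ‖f n‖ * ‖z n‖) := by
  have hs : Summable (fun n : ℤ => C / (1 + |(n : ℝ)|) ^ 2) := by
    have h1 : Summable (fun n : ℕ => C / (1 + (n : ℝ)) ^ 2) := by
      have h2 : Summable (fun n : ℕ => 1 / ((n : ℝ)) ^ 2) :=
        Real.summable_one_div_nat_pow.mpr (by norm_num)
      have h3 := (summable_nat_add_iff 1).mpr h2
      have h4 := h3.mul_left C
      refine h4.congr ?_
      intro n
      push_cast
      rw [add_comm (1 : ℝ) (n : ℝ)]
      ring
    refine Summable.of_nat_of_neg ?_ ?_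
    · refine h1.congr ?_
      intro n
      simp
    · refine h1.congr ?_
      intro n
      simp
  refine Summable.of_nonneg_of_le (fun n => by positivity) ?_ hs
  intro n
  have hpos : (0 : ℝ) < (1 + |(n : ℝ)|) ^ 2 := by positivity
  rw [le_div_iff₀ hpos]
  calc ‖f n‖ * ‖z n‖ * (1 + |(n : ℝ)|) ^ 2
      ≤ ‖f n‖ * P n * (1 + |(n : ℝ)|) ^ 2 := by
        have := hz n
        gcongr
    _ = ‖f n‖ * (P n * (1 + |(n : ℝ)|) ^ 2) := by ring
    _ ≤ C := hf n

/-- A sum along a minimal sequence does not vanish. -/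
theorem tsum_ne_zero_of_minimal {Z : Type*} [NormedAddCommGroup Z] [NormedSpace ℂ Z]
    [CompleteSpace Z] (f : ℤ → ℂ) (z : ℤ → Z) (y : ℤ → (Z →L[ℂ] ℂ))
    (hy : ∀ m n, y m (z n) = if m = n then 1 else 0)
    (hs : Summable (fun n => ‖f n‖ * ‖z n‖)) (hf : ∃ n, f n ≠ 0) :
    (∑' n : ℤ, f n • z n) ≠ 0 := by
  obtain ⟨m, hm⟩ := hf
  intro h
  have hs' : Summable (fun n => f n • z n) := by
    refine Summable.of_norm ?_
    refine hs.congr ?_
    intro n
    rw [norm_smul]
  have h1 : y m (∑' n : ℤ, f n • z n) = f m := by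
    rw [ContinuousLinearMap.map_tsum _ hs']
    rw [tsum_eq_single m]
    · rw [map_smul, hy]
      simp
    · intro n hn
      rw [map_smul, hy, if_neg (Ne.symm hn)]
      simp
  rw [h, map_zero] at h1
  exact hm h1.symm

theorem criterion (h5 : PairHIS.{u}) (h6 : NonvanStmt.{u}) : CriterionStmt.{u} := by
  intro X _ _ _ T u v y P L C k hu hv hv0 hy hP hP1 hP2 huP hvP
  by_cases hfin : FiniteDimensional ℂ (Submodule.span ℂ (Set.range v))
  · -- finite dimensional span
    let S : (X →L[ℂ] ℂ) →ₗ[ℂ] (X →L[ℂ] ℂ) :=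
      { toFun := fun w => w.comp T
        map_add' := fun a b => by ext x; simp
        map_smul' := fun a b => by ext x; simp }
    have hS : ∀ n, ∃ m, S (v n) = v m := by
      intro n
      refine ⟨n - 1, ?_⟩
      have := hv (n - 1)
      rw [sub_add_cancel] at this
      exact this
    obtain ⟨c, w, hw0, hw⟩ := exists_eigen_of_span S v hv0 hS hfin
    have hwT : ∀ x, w (T x) = c * w x := by
      intro x
      have := congrArg (fun z : X →L[ℂ] ℂ => z x) hw
      simpa [S] using this
    refine ⟨⨅ w' : {w' : X →L[ℂ] ℂ // ∀ x, w' (T x) = c * w' x}, LinearMap.ker w'.1.toLinearMap,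
      ?_, ?_, ?_, ?_⟩
    · rw [Submodule.coe_iInf]
      refine isClosed_iInter ?_
      intro w'
      exact w'.1.isClosed_ker
    · intro hbot
      have hmem : (T (u 0) - c • u 0) ∈
          ⨅ w' : {w' : X →L[ℂ] ℂ // ∀ x, w' (T x) = c * w' x},
            LinearMap.ker w'.1.toLinearMap := by
        rw [Submodule.mem_iInf]
        intro w'
        rw [LinearMap.mem_ker]
        show w'.1 (T (u 0) - c • u 0) = 0
        rw [map_sub, w'.2, map_smul, smul_eq_mul, sub_self]
      rw [hbot, Submodule.mem_bot] at hmem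
      have h1 : y 1 (T (u 0) - c • u 0) = 1 := by
        rw [hu, map_sub, map_smul, hy, hy]
        simp
      rw [hmem, map_zero] at h1
      exact zero_ne_one h1
    · intro htop
      apply hw0
      ext x
      have hx : x ∈ ⨅ w' : {w' : X →L[ℂ] ℂ // ∀ x, w' (T x) = c * w' x},
            LinearMap.ker w'.1.toLinearMap := by
        rw [htop]
        trivial
      rw [Submodule.mem_iInf] at hx
      have := hx ⟨w, hwT⟩
      rw [LinearMap.mem_ker] at this
      exact this
    · intro A hA x hx
      rw [Submodule.mem_iInf] at hx ⊢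
      intro w'
      rw [LinearMap.mem_ker]
      have hcomm : ∀ z, A (T z) = T (A z) := by
        intro z
        have := congrArg (fun B : X →L[ℂ] X => B z) hA
        simpa using this
      have := hx ⟨w'.1.comp A, by
        intro z
        show w'.1 (A (T z)) = c * w'.1 (A z)
        rw [hcomm, w'.2]⟩
      rw [LinearMap.mem_ker] at this
      exact this
  · obtain ⟨f, g, hf, ⟨C', hfC⟩, hfg, hgs, hg0⟩ := h6 (X →L[ℂ] ℂ) v P L C k hv0 hfin hP hP1 hP2 hvP
    have hfs : Summable (fun n => ‖f n‖ * ‖u n‖) := summable_of_weight f u P C' huP hfC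
    exact h5 X T u v f g hu hv hfs hgs hfg (tsum_ne_zero_of_minimal f u y hy hfs hf) hg0

theorem dualCriterion (h5 : PairHIS.{u}) (h6 : NonvanStmt.{u}) : DualCriterionStmt.{u} := by
  intro X _ _ _ T u v y P L C k hu hv hu0 hy hP hP1 hP2 hvP huP
  by_cases hfin : FiniteDimensional ℂ (Submodule.span ℂ (Set.range u))
  · have hS : ∀ n, ∃ m, T.toLinearMap (u n) = u m := by
      intro n
      exact ⟨n + 1, hu n⟩
    obtain ⟨c, x, hx0, hx⟩ := exists_eigen_of_span T.toLinearMap u hu0 hS hfin
    have hx' : T x = c • x := hx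
    refine ⟨LinearMap.ker (T - c • (1 : X →L[ℂ] X)).toLinearMap, ?_, ?_, ?_, ?_⟩
    · exact (T - c • (1 : X →L[ℂ] X)).isClosed_ker
    · intro hbot
      apply hx0
      have hmem : x ∈ LinearMap.ker (T - c • (1 : X →L[ℂ] X)).toLinearMap := by
        rw [LinearMap.mem_ker]
        show (T - c • (1 : X →L[ℂ] X)) x = 0
        simp [hx']
      rw [hbot, Submodule.mem_bot] at hmem
      exact hmem
    · intro htop
      have hT : ∀ z, T z = c • z := by
        intro z
        have hz : z ∈ LinearMap.ker (T - c • (1 : X →L[ℂ] X)).toLinearMap := by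
          rw [htop]
          trivial
        rw [LinearMap.mem_ker] at hz
        have hz' : (T - c • (1 : X →L[ℂ] X)) z = 0 := hz
        have : T z - c • z = 0 := by simpa using hz'
        exact sub_eq_zero.mp this
      have h1 : v 0 = c • v 1 := by
        ext z
        have h2 := hv 0
        rw [zero_add] at h2
        rw [← h2]
        show v 1 (T z) = (c • v 1) z
        rw [hT, map_smul]
        rfl
      have h3 : y 0 (v 0) = 0 := by
        rw [h1, map_smul, hy]
        simp
      rw [hy] at h3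
      simp at h3
    · intro A hA z hz
      rw [LinearMap.mem_ker] at hz ⊢
      have hz' : (T - c • (1 : X →L[ℂ] X)) z = 0 := hz
      have hTz : T z = c • z := by
        have : T z - c • z = 0 := by simpa using hz'
        exact sub_eq_zero.mp this
      have hcomm : A (T z) = T (A z) := by
        have := congrArg (fun B : X →L[ℂ] X => B z) hA
        simpa using this
      show (T - c • (1 : X →L[ℂ] X)) (A z) = 0
      have : T (A z) - c • A z = 0 := by
        rw [← hcomm, hTz, map_smul, sub_self]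
      simpa using this
  · obtain ⟨f, g, hf, ⟨C', hfC⟩, hfg, hgs, hg0⟩ := h6 X u P L C k hu0 hfin hP hP1 hP2 huP
    have hfs : Summable (fun n => ‖f n‖ * ‖v n‖) := summable_of_weight f v P C' hvP hfC
    refine h5 X T u v g f hu hv hgs hfs ?_ hg0 (tsum_ne_zero_of_minimal f v y hy hfs hf)
    intro j
    have h1 := hfg (-j)
    rw [← h1]
    rw [← (Equiv.addRight j).tsum_eq (fun m : ℤ => g (m - j) * f m)]
    refine tsum_congr ?_
    intro m
    show g (m + j - j) * f (m + j) = f (m - -j) * g m
    rw [add_sub_cancel_right, sub_neg_eq_add, mul_comm]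

end Pool.Agent.BShift
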