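import Pool.Agent.Lib_helper94.BShift.Defs

/-!
# M2: geometry of the distance, the folding map and the roots of unity
-/

set_option autoImplicit false

namespace Pool.Agent.BShift

theorem geo_le (M x k : ℤ) (hM : 0 < M) : dm M x ≤ |x - k * M| := by
  unfold dm
  have h1 := Int.emod_add_mul_ediv x M
  have h2 := Int.emod_nonneg x hM.ne'
  have h3 := Int.emod_lt_of_pos x hM
  set r := x % M
  set q := x / M
  rcases le_or_gt k q with h | h
  · refine (min_le_left _ _).trans ?_
    refine le_trans ?_ (le_abs_self _)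
    nlinarith
  · refine (min_le_right _ _).trans ?_
    refine le_trans ?_ (neg_le_abs _)
    nlinarith

theorem geo_exists (M x : ℤ) (hM : 0 < M) : ∃ k : ℤ, dm M x = |x - k * M| ∧ 2 * dm M x ≤ M := by
  unfold dm
  have h1 := Int.emod_add_mul_ediv x M
  have h2 := Int.emod_nonneg x hM.ne'
  have h3 := Int.emod_lt_of_pos x hM
  set r := x % M
  set q := x / M
  rcases le_total r (M - r) with h | h
  · refine ⟨q, ?_, ?_⟩
    · rw [min_eq_left h, abs_of_nonneg] <;> linarith
    · rw [min_eq_left h]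
      linarith
  · refine ⟨q + 1, ?_, ?_⟩
    · rw [min_eq_right h, abs_of_nonpos] <;> linarith
    · rw [min_eq_right h]
      linarith

theorem geo_lip (M x y : ℤ) (hM : 0 < M) : |dm M x - dm M y| ≤ |x - y| := by
  have key : ∀ x y : ℤ, dm M x - dm M y ≤ |x - y| := by
    intro x y
    obtain ⟨k, hk, _⟩ := geo_exists M y hM
    have h1 := geo_le M x k hM
    have h2 := abs_sub_le x y (k * M)
    linarith
  rw [abs_le]
  have h1 := key x y
  have h2 := key y x
  rw [abs_sub_comm] at h2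
  constructor <;> linarith

theorem geo_period (M x k : ℤ) : dm M (x + k * M) = dm M x := by
  unfold dm
  rw [Int.add_mul_emod_self_right]

theorem geo_eq_abs (M x : ℤ) (hM : 0 < M) (hx : 2 * |x| ≤ M) : dm M x = |x| := by
  obtain ⟨k, hk, hk2⟩ := geo_exists M x hM
  have h0 := geo_le M x 0 hM
  rw [zero_mul, sub_zero] at h0
  refine le_antisymm h0 ?_
  rcases eq_or_ne k 0 with rfl | hk0
  · rw [hk, zero_mul, sub_zero]
  · rw [hk]
    have h1 : |k * M| ≤ |x| + |x - k * M| := by
      have := abs_sub_le x 0 (k * M)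
      have h2 := abs_sub_abs_le_abs_sub (k * M) x
      rw [abs_sub_comm (k * M) x] at h2
      linarith
    have h2 : M ≤ |k * M| := by
      rw [abs_mul, abs_of_pos hM]
      have := Int.one_le_abs hk0
      nlinarith
    linarith

theorem geo_norm_zeta (M : ℕ) (ζ : ℂ) (hζ : ζ = Complex.exp (2 * Real.pi * Complex.I / M))
    (j : ℤ) : ‖ζ ^ j - 1‖ = |2 * Real.sin (Real.pi * j / M)| := by
  have h1 : ζ ^ j = Complex.exp (Complex.I * ((2 * Real.pi * j / M : ℝ) : ℂ)) := by
    rw [hζ, ← Complex.exp_int_mul]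
    congr 1
    push_cast
    ring
  rw [h1, Complex.norm_exp_I_mul_ofReal_sub_one, Real.norm_eq_abs]
  congr 3
  ring

theorem geo_norm_sub (M : ℕ) (ζ : ℂ) (hζ : ζ = Complex.exp (2 * Real.pi * Complex.I / M))
    (m n : ℤ) : ‖ζ ^ m - ζ ^ n‖ = ‖ζ ^ (m - n) - 1‖ := by
  have h0 : ζ ≠ 0 := by rw [hζ]; exact Complex.exp_ne_zero _
  have h1 : ‖ζ‖ = 1 := by
    have : (2 * Real.pi * Complex.I / M : ℂ) = ((2 * Real.pi / M : ℝ) : ℂ) * Complex.I := by
      push_cast
      ring
    rw [hζ, this]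
    exact Complex.norm_exp_ofReal_mul_I _
  have h2 : ζ ^ m - ζ ^ n = ζ ^ n * (ζ ^ (m - n) - 1) := by
    rw [mul_sub, mul_one, ← zpow_add₀ h0, add_sub_cancel]
  rw [h2, norm_mul, norm_zpow, h1, one_zpow, one_mul]

theorem geo_pow_M (M : ℕ) (ζ : ℂ) (hM : 0 < M)
    (hζ : ζ = Complex.exp (2 * Real.pi * Complex.I / M)) : IsPrimitiveRoot ζ M := by
  rw [hζ]
  exact Complex.isPrimitiveRoot_exp M hM.ne'

theorem geometry : Geometry where
  dm_nonneg := by
    intro M x hM
    obtain ⟨k, hk, _⟩ := geo_exists M x hM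
    rw [hk]
    exact abs_nonneg _
  dm_eq_abs := geo_eq_abs
  dm_period := geo_period
  dm_lip := fun M x y hM => geo_lip M x y hM
  dm_pos := by
    intro M x hM hx
    obtain ⟨k, hk, _⟩ := geo_exists M x hM
    rw [hk]
    apply Int.one_le_abs
    intro h
    exact hx ⟨k, by linarith⟩
  fold_eq := by
    intro R n hR hn
    unfold fold
    rw [abs_le] at hn
    rw [geo_eq_abs (4 * R) (n + R) (by linarith) (by
      rw [abs_of_nonneg (by linarith)]
      linarith), abs_of_nonneg (by linarith)]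
    ring
  fold_lip := by
    intro R m n hR
    unfold fold
    have h1 : dm (4 * R) (m + R) - R - (dm (4 * R) (n + R) - R) =
      dm (4 * R) (m + R) - dm (4 * R) (n + R) := by ring
    rw [h1]
    refine (geo_lip _ _ _ (by linarith)).trans (le_of_eq ?_)
    congr 1
    ring
  fold_period := by
    intro R n k
    unfold fold
    have h1 : n + k * (4 * R) + R = (n + R) + k * (4 * R) := by ring
    rw [h1, geo_period]
  root_lower := by
    intro M ζ hM hζ m n
    have hM' : (0 : ℤ) < M := by exact_mod_cast hM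
    have hMr : (0 : ℝ) < M := by exact_mod_cast hM
    have hpr := geo_pow_M M ζ hM hζ
    rw [geo_norm_sub M ζ hζ]
    set j := m - n
    obtain ⟨k, hk, hk2⟩ := geo_exists M j hM'
    have h0 : ζ ≠ 0 := by rw [hζ]; exact Complex.exp_ne_zero _
    have h1 : ζ ^ j = ζ ^ (j - k * M) := by
      have h9 : ζ ^ (k * (M : ℤ)) = 1 := by
        rw [mul_comm k, zpow_mul, zpow_natCast, hpr.pow_eq_one, one_zpow]
      have h10 : j = (j - k * M) + k * M := by ring
      conv_lhs => rw [h10, zpow_add₀ h0, h9, mul_one]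
    rw [h1, geo_norm_zeta M ζ hζ]
    have h2 : ‖ζ - 1‖ = |2 * Real.sin (Real.pi * (1 : ℤ) / M)| := by
      rw [← geo_norm_zeta M ζ hζ, zpow_one]
    rw [h2, abs_mul, abs_mul]
    set d := j - k * M
    have hd : (dm M j : ℝ) = |(d : ℝ)| := by
      rw [hk]
      push_cast
      rfl
    have hd2 : 2 * |(d : ℝ)| ≤ M := by
      rw [← hd]
      exact_mod_cast hk2
    rw [hd]
    have h3 : |Real.sin (Real.pi * d / M)| = Real.sin (Real.pi * |(d : ℝ)| / M) := by
      have hx : 0 ≤ Real.pi * |(d : ℝ)| / M := by positivity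
      have hx2 : Real.pi * |(d : ℝ)| / M ≤ Real.pi := by
        rw [div_le_iff₀ hMr]
        have := Real.pi_pos
        nlinarith [abs_nonneg (d : ℝ)]
      have h4 := Real.sin_nonneg_of_nonneg_of_le_pi hx hx2
      rw [← abs_of_nonneg h4]
      rcases abs_cases (d : ℝ) with ⟨h, _⟩ | ⟨h, _⟩
      · rw [h]
      · rw [h, mul_neg, neg_div, Real.sin_neg, abs_neg]
    have h4 : 2 / Real.pi * (Real.pi * |(d : ℝ)| / M) ≤ Real.sin (Real.pi * |(d : ℝ)| / M) := by
      apply Real.mul_le_sin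
      · positivity
      · rw [div_le_iff₀ hMr]
        have := Real.pi_pos
        nlinarith
    have h5 : |Real.sin (Real.pi * (1 : ℤ) / M)| ≤ Real.pi / M := by
      refine Real.abs_sin_le_abs.trans (le_of_eq ?_)
      rw [Int.cast_one, mul_one, abs_of_nonneg (by positivity)]
    rw [h3]
    have h6 : 2 / Real.pi * (Real.pi * |(d : ℝ)| / M) = 2 * |(d : ℝ)| / M := by
      field_simp
    rw [h6] at h4
    have h7 : |(2 : ℝ)| = 2 := abs_two
    rw [h7]
    have h8 : Real.pi ≤ 4 := Real.pi_le_four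
    calc 2 * |Real.sin (Real.pi * (1 : ℤ) / M)| * |(d : ℝ)| ≤ 2 * (Real.pi / M) * |(d : ℝ)| := by
          gcongr
      _ ≤ 2 * (4 / M) * |(d : ℝ)| := by gcongr
      _ = 2 * (2 * (2 * |(d : ℝ)| / M)) := by ring
      _ ≤ 2 * (2 * Real.sin (Real.pi * |(d : ℝ)| / M)) := by gcongr
  root_upper := by
    intro M ζ hM hζ m n
    rw [geo_norm_sub M ζ hζ]
    have h1 : ‖ζ‖ = 1 := (geo_pow_M M ζ hM hζ).norm'_eq_one hM.ne'
    have key : ∀ k : ℕ, ‖ζ ^ k - 1‖ ≤ ‖ζ - 1‖ * k := by
      intro k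
      induction k with
      | zero => simp
      | succ k ih =>
        have h2 : ζ ^ (k + 1) - 1 = ζ * (ζ ^ k - 1) + (ζ - 1) := by ring
        rw [h2]
        refine (norm_add_le _ _).trans ?_
        rw [norm_mul, h1, one_mul]
        push_cast
        linarith
    obtain ⟨k, hk | hk⟩ := Int.eq_nat_or_neg (m - n)
    · rw [hk, zpow_natCast]
      simpa using key k
    · have h0 : ζ ≠ 0 := by rw [hζ]; exact Complex.exp_ne_zero _
      have h2 : ζ ^ (-(k : ℤ)) - 1 = -(ζ ^ (-(k : ℤ)) * (ζ ^ k - 1)) := by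
        rw [mul_sub, mul_one, ← zpow_natCast, ← zpow_add₀ h0, neg_add_cancel, zpow_zero]
        ring
      rw [hk, h2, norm_neg, norm_mul, norm_zpow, h1, one_zpow, one_mul]
      simpa using key k
  root_inj := by
    intro M ζ hM hζ m n
    have h0 : ζ ≠ 0 := by rw [hζ]; exact Complex.exp_ne_zero _
    have hpr := geo_pow_M M ζ hM hζ
    rw [← hpr.zpow_eq_one_iff_dvd, zpow_sub₀ h0, div_eq_one_iff_eq (zpow_ne_zero _ h0)]

end Pool.Agent.BShift
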