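import Pool.Agent.Lib_helper94.BShift.Defs

/-!
# M3: the two functions at level `R`
-/

set_option autoImplicit false

namespace Pool.Agent.BShift

open Finset

namespace LevelAux

theorem rho_period (h2 : Geometry) (R n k : ℤ) : rho R (n + k * (4 * R)) = rho R n := by
  unfold rho
  rw [h2.dm_period]

theorem pw_period (h2 : Geometry) (P : ℤ → ℝ) (R n k : ℤ) :
    pw P R (n + k * (4 * R)) = pw P R n := by
  unfold pw
  rw [h2.fold_period]

theorem rho_pos (h2 : Geometry) (R n : ℤ) (hR : 0 < R) : 1 ≤ rho R n := by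
  unfold rho
  have h := h2.dm_nonneg (4 * R) n (by omega)
  have : (0 : ℝ) ≤ (dm (4 * R) n : ℝ) := by exact_mod_cast h
  linarith

theorem rho_small (h2 : Geometry) (R n : ℤ) (hR : 0 < R) (hn : |n| ≤ R) :
    rho R n = 1 + |(n : ℝ)| := by
  unfold rho
  rw [h2.dm_eq_abs (4 * R) n (by omega) (by omega)]
  push_cast
  rfl

theorem pw_small (h2 : Geometry) (P : ℤ → ℝ) (R n : ℤ) (hR : 0 < R) (hn : |n| ≤ R) :
    pw P R n = P n := by
  unfold pw
  rw [h2.fold_eq R n hR hn]

/-- every integer is congruent to one in the basic interval -/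
theorem reduce (R n : ℤ) (hR : 0 < R) :
    ∃ k n' : ℤ, n = n' + k * (4 * R) ∧ n' ∈ Finset.Ico (-2 * R) (2 * R) := by
  refine ⟨(n + 2 * R) / (4 * R), (n + 2 * R) % (4 * R) - 2 * R, ?_, ?_⟩
  · have := Int.emod_add_mul_ediv (n + 2 * R) (4 * R)
    linarith [mul_comm ((n + 2 * R) / (4 * R)) (4 * R)]
  · have h1 := Int.emod_nonneg (n + 2 * R) (show (4 * R) ≠ 0 by omega)
    have h2 := Int.emod_lt_of_pos (n + 2 * R) (show 0 < 4 * R by omega)
    rw [Finset.mem_Ico]
    constructor <;> linarith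

end LevelAux

open LevelAux

theorem level (h1 : AbstractFinite) (h2 : Geometry) : LevelStmt := by
  classical
  intro E hE0 hEne
  have hab : ∀ e ∈ E, (1 : ℝ) ≤ |(e : ℝ)| := by
    intro e he
    have h : e ≠ 0 := fun h => hE0 (h ▸ he)
    have : (1 : ℤ) ≤ |e| := Int.one_le_abs h
    exact_mod_cast this
  have hA0 : (0 : ℝ) ≤ ∑ e ∈ E, (1 + |(e : ℝ)|) ^ 2 := Finset.sum_nonneg fun e _ => by positivity
  have hB0 : (0 : ℝ) ≤ ∏ e ∈ E, |(e : ℝ)| := Finset.prod_nonneg fun e _ => abs_nonneg _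
  have hC0 : (0 : ℝ) ≤ ∏ e ∈ E, (2 + |(e : ℝ)|) := Finset.prod_nonneg fun e _ => by positivity
  have hD0 : (0 : ℝ) < 2 ^ E.card := by positivity
  set cA : ℝ := ∑ e ∈ E, (1 + |(e : ℝ)|) ^ 2 with hcA
  set cB : ℝ := ∏ e ∈ E, |(e : ℝ)| with hcB
  set cC : ℝ := ∏ e ∈ E, (2 + |(e : ℝ)|) with hcC
  set cD : ℝ := 2 ^ E.card with hcD
  have hDC : 0 ≤ cD * cC := mul_nonneg hD0.le hC0
  refine ⟨1 + cA + 2 * cB + 2 * cD + cD * cC, by linarith, ?_⟩
  intro P hP hP0 ε hε hε2 R hR hER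
  set C : ℝ := 1 + cA + 2 * cB + 2 * cD + cD * cC with hC
  set M : ℕ := (4 * R).toNat with hM
  have hM4 : (M : ℤ) = 4 * R := Int.toNat_of_nonneg (by omega)
  have hMpos : 0 < M := by omega
  set ζ : ℂ := Complex.exp (2 * Real.pi * Complex.I / M) with hζ
  have hinj := h2.root_inj M ζ hMpos hζ
  have hlow := h2.root_lower M ζ hMpos hζ
  have hupp := h2.root_upper M ζ hMpos hζ
  rw [hM4] at hlow
  have hζ0 : ζ ≠ 0 := Complex.exp_ne_zero _
  have hζ1 : ζ ≠ 1 := by
    intro h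
    have h3 := (hinj 1 0).mp (by rw [h]; simp)
    rw [hM4] at h3
    have h4 := Int.le_of_dvd (by norm_num) h3
    omega
  have hd : 0 < ‖ζ - 1‖ := norm_pos_iff.mpr (sub_ne_zero.mpr hζ1)
  set d : ℝ := ‖ζ - 1‖ with hdd
  set I : Finset ℤ := Finset.Ico (-2 * R) (2 * R) with hI
  have hEI : E ⊆ I := by
    intro e he
    have := abs_le.mp (hER e he)
    rw [hI, Finset.mem_Ico]
    omega
  have h0I : (0 : ℤ) ∈ I := by rw [hI, Finset.mem_Ico]; omega
  have hndvd : ∀ m ∈ I, ∀ n ∈ I, m ≠ n → ¬ (4 * R ∣ m - n) := by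
    intro m hm n hn hmn h
    rw [hI, Finset.mem_Ico] at hm hn
    obtain ⟨k, hk⟩ := h
    rcases lt_trichotomy k 0 with h | h | h
    · have : 4 * R * k ≤ 4 * R * (-1) := mul_le_mul_of_nonneg_left (by omega) (by omega)
      omega
    · rw [h, mul_zero] at hk; omega
    · have : 4 * R * 1 ≤ 4 * R * k := mul_le_mul_of_nonneg_left (by omega) (by omega)
      omega
  set ω : ℤ → ℝ := fun n => pw P R n * rho R n ^ 2 with hω
  have hωpos : ∀ n, 0 < ω n := by
    intro n
    have := rho_pos h2 R n hR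
    have h3 : 0 < pw P R n := hP _
    simp only [hω]
    positivity
  have hω0 : ω 0 = 1 := by
    simp only [hω]
    rw [rho_small h2 R 0 hR (by simpa using hR.le), pw_small h2 P R 0 hR (by simpa using hR.le), hP0]
    simp
  have hωper : ∀ n k : ℤ, ω (n + k * (4 * R)) = ω n := by
    intro n k
    simp only [hω]
    rw [rho_period h2, pw_period h2]
  have hωE : ∀ e ∈ E, ω e = P e * (1 + |(e : ℝ)|) ^ 2 := by
    intro e he
    simp only [hω]
    rw [rho_small h2 R e hR (hER e he), pw_small h2 P R e hR (hER e he)]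
  obtain ⟨m, q, g0, h, hq, hqN, hq0, hann, hgh, hhN, hh0⟩ :=
    h1 I E (fun n => ζ ^ n) ω 0 ε (by
      intro a ha b hb hab
      by_contra hne
      apply hndvd a ha b hb hne
      have := (hinj a b).mp hab
      rwa [hM4] at this) hEI hEne h0I hE0 (fun n _ => hωpos n) hω0 hε (by linarith)
  -- the normalised functions
  set S : ℝ := ∑ e ∈ E, ‖q.eval (ζ ^ e)‖ * P e with hS
  have hS0 : 0 ≤ S := Finset.sum_nonneg fun e _ => mul_nonneg (norm_nonneg _) (hP e).le
  set g1 : ℤ → ℂ := fun n => g0 n * (ζ - 1) ^ E.card with hg1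
  set S' : ℝ := ∑ e ∈ E, ‖g1 e‖ / P e with hS'
  have hS'0 : 0 ≤ S' := Finset.sum_nonneg fun e _ => div_nonneg (norm_nonneg _) (hP e).le
  have hF : 0 < 1 + S := by linarith
  have hG : 0 < 1 + S' := by linarith
  have hFn : ‖((1 + S : ℝ) : ℂ)‖ = 1 + S := by
    rw [Complex.norm_real, Real.norm_of_nonneg hF.le]
  have hGn : ‖((1 + S' : ℝ) : ℂ)‖ = 1 + S' := by
    rw [Complex.norm_real, Real.norm_of_nonneg hG.le]
  -- products of distances
  have hlow0 : (d / 2) ^ E.card ≤ ∏ e ∈ E, ‖ζ ^ (0 : ℤ) - ζ ^ e‖ := by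
    rw [← Finset.prod_const]
    apply Finset.prod_le_prod (fun e _ => by positivity)
    intro e he
    have h3 := hlow 0 e
    have h4 : dm (4 * R) (0 - e) = |e| := by
      have := hER e he
      rw [h2.dm_eq_abs (4 * R) (0 - e) (by omega) (by rw [zero_sub, abs_neg]; omega), zero_sub,
        abs_neg]
    rw [h4] at h3
    have h5 := hab e he
    push_cast at h3
    nlinarith
  have hupp0 : ∏ e ∈ E, ‖ζ ^ (0 : ℤ) - ζ ^ e‖ ≤ d ^ E.card * cB := by
    rw [← Finset.prod_const, hcB, ← Finset.prod_mul_distrib]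
    apply Finset.prod_le_prod (fun e _ => norm_nonneg _)
    intro e he
    have h3 := hupp 0 e
    simpa using h3
  have hlown : ∀ n ∈ I, n ∉ E →
      (d / 2) ^ E.card * rho R n ^ E.card ≤ (∏ e ∈ E, ‖ζ ^ n - ζ ^ e‖) * cC := by
    intro n hn hnE
    rw [← mul_pow, ← Finset.prod_const, hcC, ← Finset.prod_mul_distrib]
    have hr1 := rho_pos h2 R n hR
    apply Finset.prod_le_prod (fun e _ => by positivity)
    intro e he
    have hne : n ≠ e := fun h => hnE (h ▸ he)
    have h3 := hlow n e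
    have h4 : (1 : ℝ) ≤ (dm (4 * R) (n - e) : ℝ) := by
      exact_mod_cast h2.dm_pos (4 * R) (n - e) (by omega) (hndvd n hn e (hEI he) hne)
    have h5 : rho R n ≤ 1 + (dm (4 * R) (n - e) : ℝ) + |(e : ℝ)| := by
      unfold rho
      have h6 := h2.dm_lip (4 * R) n (n - e) (by omega)
      have h7 : ((dm (4 * R) n - dm (4 * R) (n - e) : ℤ) : ℝ) ≤ |(e : ℝ)| := by
        have h8 : dm (4 * R) n - dm (4 * R) (n - e) ≤ |e| := by
          have := (le_abs_self _).trans h6
          rwa [sub_sub_cancel] at this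
        have h9 : ((dm (4 * R) n - dm (4 * R) (n - e) : ℤ) : ℝ) ≤ ((|e| : ℤ) : ℝ) := by
          exact_mod_cast h8
        simpa using h9
      push_cast at h7
      linarith
    have h6 : rho R n ≤ (2 + |(e : ℝ)|) * (dm (4 * R) (n - e) : ℝ) := by
      have := abs_nonneg (e : ℝ)
      nlinarith
    have h7 : (d / 2) * rho R n ≤ (d / 2) * ((2 + |(e : ℝ)|) * (dm (4 * R) (n - e) : ℝ)) :=
      mul_le_mul_of_nonneg_left h6 (by positivity)
    have h8 : (2 + |(e : ℝ)|) * (d * (dm (4 * R) (n - e) : ℝ)) ≤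
        (2 + |(e : ℝ)|) * (2 * ‖ζ ^ n - ζ ^ e‖) :=
      mul_le_mul_of_nonneg_left h3 (by positivity)
    linarith
  have hprodnorm : ∀ n ∈ I, n ∉ E →
      ‖g0 n‖ * ∏ e ∈ E, ‖ζ ^ n - ζ ^ e‖ = ‖h n‖ := by
    intro n hn hnE
    rw [← hgh n hn hnE, norm_mul, norm_prod]
  have hg1n : ∀ n, ‖g1 n‖ = ‖g0 n‖ * d ^ E.card := by
    intro n
    simp only [hg1]
    rw [norm_mul, norm_pow]
  refine ⟨fun n => q.eval (ζ ^ n) / ((1 + S : ℝ) : ℂ), fun n => g1 n / ((1 + S' : ℝ) : ℂ),
    1 / (1 + S'), by positivity, ?_, ?_, ?_, ?_, ?_, ?_, ?_, ?_, ?_⟩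
  · rw [div_le_one hG]; linarith
  · -- bound for f
    intro n
    obtain ⟨k, n', hn, hn'⟩ := reduce R n hR
    have hz : ζ ^ n = ζ ^ n' := by
      rw [hinj, hM4, hn]
      exact ⟨k, by ring⟩
    change ‖q.eval (ζ ^ n) / ((1 + S : ℝ) : ℂ)‖ * ω n ≤ C
    rw [hz, hn, hωper, norm_div, hFn]
    by_cases hnE : n' ∈ E
    · rw [hωE n' hnE]
      have h3 : ‖q.eval (ζ ^ n')‖ * P n' ≤ S :=
        Finset.single_le_sum (f := fun e => ‖q.eval (ζ ^ e)‖ * P e)
          (fun e _ => mul_nonneg (norm_nonneg _) (hP e).le) hnE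
      have h4 : (1 + |(n' : ℝ)|) ^ 2 ≤ cA :=
        Finset.single_le_sum (f := fun e : ℤ => (1 + |(e : ℝ)|) ^ 2)
          (fun e _ => by positivity) hnE
      have h5 : ‖q.eval (ζ ^ n')‖ / (1 + S) * (P n' * (1 + |(n' : ℝ)|) ^ 2) =
          (‖q.eval (ζ ^ n')‖ * P n') / (1 + S) * (1 + |(n' : ℝ)|) ^ 2 := by ring
      rw [h5]
      have h6 : (‖q.eval (ζ ^ n')‖ * P n') / (1 + S) ≤ 1 := by
        rw [div_le_one hF]; linarith
      have h7 := mul_le_mul_of_nonneg_right h6 (show 0 ≤ (1 + |(n' : ℝ)|) ^ 2 by positivity)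
      linarith
    · have h3 := hqN n' hn' hnE
      have h5 : ‖q.eval (ζ ^ n')‖ / (1 + S) * ω n' = (‖q.eval (ζ ^ n')‖ * ω n') / (1 + S) := by
        ring
      rw [h5]
      have h6 : (‖q.eval (ζ ^ n')‖ * ω n') / (1 + S) ≤ 1 := by
        rw [div_le_one hF]; linarith
      linarith
  · -- nonvanishing of f
    have h3 : ∑ e ∈ E, ‖q.eval (ζ ^ e) / ((1 + S : ℝ) : ℂ)‖ * P e = S / (1 + S) := by
      rw [hS, Finset.sum_div]
      apply Finset.sum_congr rfl
      intro e _
      rw [norm_div, hFn]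
      ring
    rw [h3, norm_div, hFn, ← add_div, le_div_iff₀ hF]
    nlinarith
  · -- decay of g
    intro n hn hnE hn0
    rw [norm_div, hGn, hg1n]
    have h3 := hlown n hn hnE
    have h4 := hprodnorm n hn hnE
    have h5 := hhN n hn hnE hn0
    have h6 : ‖g0 n‖ * ((d / 2) ^ E.card * rho R n ^ E.card) ≤ ‖h n‖ * cC := by
      rw [← h4]
      have := mul_le_mul_of_nonneg_left h3 (norm_nonneg (g0 n))
      linarith
    have h7 : ‖g0 n‖ * d ^ E.card * rho R n ^ E.card ≤ ε * (cD * cC) * ω n := by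
      have h8 : ‖h n‖ * cC ≤ ε * ω n * cC := mul_le_mul_of_nonneg_right h5 hC0
      have h9 : ‖g0 n‖ * d ^ E.card * rho R n ^ E.card =
          cD * (‖g0 n‖ * ((d / 2) ^ E.card * rho R n ^ E.card)) := by
        rw [hcD, div_pow]
        field_simp
      rw [h9]
      have := mul_le_mul_of_nonneg_left (h6.trans h8) hD0.le
      linarith
    have h8 : ε * (cD * cC) * ω n ≤ ε * C * ω n := by
      apply mul_le_mul_of_nonneg_right _ (hωpos n).le
      apply mul_le_mul_of_nonneg_left _ hε.le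
      linarith
    have h9 := h7.trans h8
    change ‖g0 n‖ * d ^ E.card / (1 + S') * rho R n ^ E.card ≤ 1 / (1 + S') * ε * C * ω n
    have e1 : ‖g0 n‖ * d ^ E.card / (1 + S') * rho R n ^ E.card =
        (‖g0 n‖ * d ^ E.card * rho R n ^ E.card) / (1 + S') := by ring
    have e2 : 1 / (1 + S') * ε * C * ω n = (ε * C * ω n) / (1 + S') := by ring
    rw [e1, e2]
    exact div_le_div_of_nonneg_right h9 hG.le
  · -- s ≤ C |g 0|
    rw [norm_div, hGn, hg1n]
    have h3 := hprodnorm 0 h0I hE0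
    have h4 : 1 / 2 ≤ ‖h 0‖ := by
      have h5 : ‖(1 : ℂ)‖ ≤ ‖h 0‖ + ‖h 0 - 1‖ := by
        have := norm_sub_le (h 0) (h 0 - 1)
        rwa [sub_sub_cancel] at this
      rw [norm_one] at h5
      linarith
    have h5 : 1 / 2 ≤ ‖g0 0‖ * d ^ E.card * cB := by
      have := mul_le_mul_of_nonneg_left hupp0 (norm_nonneg (g0 0))
      rw [h3] at this
      linarith
    rw [← mul_div_assoc]
    apply div_le_div_of_nonneg_right _ hG.le
    have h6 : 0 ≤ ‖g0 0‖ * d ^ E.card := by positivity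
    have h7 : 2 * cB * (‖g0 0‖ * d ^ E.card) ≤ C * (‖g0 0‖ * d ^ E.card) := by
      apply mul_le_mul_of_nonneg_right _ h6
      linarith
    linarith
  · -- |g 0| ≤ C
    rw [norm_div, hGn, hg1n]
    have h3 := hprodnorm 0 h0I hE0
    have h4 : ‖h 0‖ ≤ 2 := by
      have h5 : ‖h 0‖ ≤ ‖h 0 - 1‖ + ‖(1 : ℂ)‖ := by
        have := norm_add_le (h 0 - 1) 1
        rwa [sub_add_cancel] at this
      rw [norm_one] at h5
      linarith
    have h5 : ‖g0 0‖ * (d / 2) ^ E.card ≤ 2 := by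
      have := mul_le_mul_of_nonneg_left hlow0 (norm_nonneg (g0 0))
      rw [h3] at this
      linarith
    have h6 : ‖g0 0‖ * d ^ E.card = cD * (‖g0 0‖ * (d / 2) ^ E.card) := by
      rw [hcD, div_pow]
      field_simp
    have h7 : ‖g0 0‖ * d ^ E.card ≤ C := by
      rw [h6]
      have := mul_le_mul_of_nonneg_left h5 hD0.le
      linarith
    rw [div_le_iff₀ hG]
    have h8 : 0 ≤ ‖g0 0‖ * d ^ E.card := by positivity
    nlinarith
  · -- |g e| ≤ P e
    intro e he
    rw [norm_div, hGn, div_le_iff₀ hG]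
    have h3 : ‖g1 e‖ / P e ≤ S' :=
      Finset.single_le_sum (f := fun e => ‖g1 e‖ / P e)
        (fun e _ => div_nonneg (norm_nonneg _) (hP e).le) he
    rw [div_le_iff₀ (hP e)] at h3
    have := hP e
    nlinarith
  · -- normalisation of g
    have h3 : ∑ e ∈ E, ‖g1 e / ((1 + S' : ℝ) : ℂ)‖ / P e = S' / (1 + S') := by
      rw [hS', Finset.sum_div]
      apply Finset.sum_congr rfl
      intro e _
      rw [norm_div, hGn]
      ring
    rw [h3, ← add_div, div_self hG.ne']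
  · -- orthogonality
    intro k
    set r : Polynomial ℂ := q.comp (Polynomial.C (ζ ^ (-k)) * Polynomial.X) with hr
    have hrdeg : r.degree < ((m + E.card : ℕ) : WithBot ℕ) := by
      by_cases hr0 : r = 0
      · rw [hr0, Polynomial.degree_zero]
        exact WithBot.bot_lt_coe _
      · have hq1 : q ≠ 0 := by
          rintro rfl
          exact hr0 (by rw [hr, Polynomial.zero_comp])
        have h3 : q.natDegree < m + 1 := by
          rwa [← Polynomial.natDegree_lt_iff_degree_lt hq1] at hq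
        rw [← Polynomial.natDegree_lt_iff_degree_lt hr0]
        have h4 : r.natDegree ≤ q.natDegree * 1 := by
          refine (Polynomial.natDegree_comp_le).trans ?_
          exact Nat.mul_le_mul_left _
            ((Polynomial.natDegree_C_mul_le _ _).trans Polynomial.natDegree_X_le)
        have h5 : 1 ≤ E.card := Finset.card_pos.mpr hEne
        omega
    have h3 := hann r hrdeg
    have h4 : ∀ x ∈ I, q.eval (ζ ^ (x - k)) / ((1 + S : ℝ) : ℂ) * (g1 x / ((1 + S' : ℝ) : ℂ)) =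
        (g0 x * r.eval (ζ ^ x)) * ((ζ - 1) ^ E.card / ((1 + S : ℝ) : ℂ) / ((1 + S' : ℝ) : ℂ)) := by
      intro x _
      have h5 : r.eval (ζ ^ x) = q.eval (ζ ^ (x - k)) := by
        rw [hr, Polynomial.eval_comp, Polynomial.eval_mul, Polynomial.eval_C, Polynomial.eval_X,
          ← zpow_add₀ hζ0]
        congr 2
        ring
      rw [h5]
      simp only [hg1]
      ring
    rw [Finset.sum_congr rfl h4, ← Finset.sum_mul, h3, zero_mul]

end Pool.Agent.BShift
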