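import Pool.Agent.Lib_helper94.BShift.Defs

/-!
# Weighted bilateral shifts on sequence spaces, and invertible operators

The two concluding theorems: the block statement gives the result for operator weighted shifts
on `ℓ^p`, and the two criteria give the result for invertible operators.
-/

set_option autoImplicit false

namespace Pool.Agent.BShift

open scoped ENNReal

universe u v

/-- The block statement gives the result for operator weighted shifts on `ℓ^p`. -/
theorem lpStmt (h : BlockStmt.{v, v}) : LpStmt.{v} := by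
  intro p hp H _ _ _ W T hT hT0
  have : CompleteSpace H := FiniteDimensional.complete ℂ H
  have hp0 : (0 : ℝ≥0∞) < p := zero_lt_one.trans_le hp.out
  rcases subsingleton_or_nontrivial H with hs | hn
  · exfalso
    apply hT0
    ext x n
    exact Subsingleton.elim _ _
  · refine h (lp (fun _ : ℤ => H) p) H T
      (fun n => lp.singleContinuousLinearMap ℂ (fun _ : ℤ => H) p n)
      (fun n => lp.evalCLM ℂ (fun _ : ℤ => H) p n) W 1 ?_ ?_ ?_ ?_ ?_ ?_ hT0
    · intro n
      refine ContinuousLinearMap.opNorm_le_bound _ zero_le_one (fun x => ?_)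
      rw [lp.singleContinuousLinearMap_apply, lp.norm_single hp0, one_mul]
    · intro n
      refine ContinuousLinearMap.opNorm_le_bound _ zero_le_one (fun x => ?_)
      rw [one_mul]
      exact lp.norm_apply_le_norm hp0.ne' x n
    · intro n x
      exact lp.single_apply_self (E := fun _ : ℤ => H) p n x
    · intro m n hmn x
      exact lp.single_apply_ne (E := fun _ : ℤ => H) p n x hmn
    · intro n x
      ext m
      obtain ⟨m, rfl⟩ : ∃ m' : ℤ, m = m' + 1 := ⟨m - 1, by ring⟩
      rw [hT]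
      by_cases hmn : m = n
      · subst hmn
        have e1 : lp.single (E := fun _ : ℤ => H) p m x m = x :=
          lp.single_apply_self (E := fun _ : ℤ => H) p m x
        have e2 : lp.single (E := fun _ : ℤ => H) p (m + 1) (W m x) (m + 1) = W m x :=
          lp.single_apply_self (E := fun _ : ℤ => H) p (m + 1) (W m x)
        exact (congrArg (W m) e1).trans e2.symm
      · have e1 : lp.single (E := fun _ : ℤ => H) p n x m = 0 :=
          lp.single_apply_ne (E := fun _ : ℤ => H) p n x hmn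
        have e2 : lp.single (E := fun _ : ℤ => H) p (n + 1) (W n x) (m + 1) = 0 :=
          lp.single_apply_ne (E := fun _ : ℤ => H) p (n + 1) (W n x)
            (fun hc => hmn (by linarith))
        exact ((congrArg (W m) e1).trans (map_zero _)).trans e2.symm
    · intro n x
      exact hT x n

/-- A vector outside a closed subspace is separated from it by a functional. -/
theorem exists_sep {X : Type u} [NormedAddCommGroup X] [NormedSpace ℂ X] (S : Submodule ℂ X)
    (x : X) (hx : x ∉ S.topologicalClosure) :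
    ∃ y : X →L[ℂ] ℂ, y x = 1 ∧ ∀ a ∈ S, y a = 0 := by
  obtain ⟨f, c, hf1, hf2⟩ := RCLike.geometric_hahn_banach_closed_point (𝕜 := ℂ)
    (s := (S.topologicalClosure : Set X))
    ((S.topologicalClosure.restrictScalars ℝ).convex) S.isClosed_topologicalClosure hx
  have hz : ∀ a ∈ S.topologicalClosure, f a = 0 := by
    intro a ha
    by_contra hne
    have hpos : 0 < Complex.normSq (f a) := Complex.normSq_pos.mpr hne
    have hc : ∀ t : ℝ, t * Complex.normSq (f a) < c := by
      intro t
      have h1 := hf1 (((t : ℂ) * (starRingEnd ℂ) (f a)) • a) (S.topologicalClosure.smul_mem _ ha)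
      rw [map_smul, smul_eq_mul] at h1
      have h2 : (t : ℂ) * (starRingEnd ℂ) (f a) * f a = ((t * Complex.normSq (f a) : ℝ) : ℂ) := by
        rw [mul_assoc, mul_comm ((starRingEnd ℂ) (f a)) (f a), Complex.mul_conj]
        push_cast
        ring
      rw [h2] at h1
      simpa using h1
    have := hc (c / Complex.normSq (f a))
    rw [div_mul_cancel₀ _ hpos.ne'] at this
    exact lt_irrefl _ this
  have hfx : f x ≠ 0 := by
    intro h0
    have h1 := hf1 0 S.topologicalClosure.zero_mem
    rw [h0] at hf2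
    rw [map_zero] at h1
    exact lt_asymm h1 hf2
  refine ⟨(f x)⁻¹ • f, ?_, ?_⟩
  · simp [hfx]
  · intro a ha
    simp [hz a (S.le_topologicalClosure ha)]

/-- The two criteria give the result for invertible operators. -/
theorem invertible (h : CriterionStmt.{u}) (h2 : DualCriterionStmt.{u}) : InvertibleStmt.{u} := by
  intro X _ _ _ T u v C k hu hv hmin hbd
  -- powers of `T`
  have hadd : ∀ (m n : ℤ) (x : X), (T ^ (m + n)) x = (T ^ m) ((T ^ n) x) := by
    intro m n x
    rw [zpow_add]
    rfl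
  have hone : ∀ x : X, (T ^ (1 : ℤ)) x = T x := by
    intro x
    rw [zpow_one]
  have hzero : ∀ x : X, (T ^ (0 : ℤ)) x = x := by
    intro x
    rw [zpow_zero]
    rfl
  have hT1 : ∀ n : ℤ, T ((T ^ n) u) = (T ^ (n + 1)) u := by
    intro n
    rw [add_comm n 1, hadd 1 n, hone]
  have hcomp : ∀ n : ℤ, (v.comp ((T ^ (-(n + 1)) : X ≃L[ℂ] X) : X →L[ℂ] X)).comp
      (T : X →L[ℂ] X) = v.comp ((T ^ (-n) : X ≃L[ℂ] X) : X →L[ℂ] X) := by
    intro n
    ext x
    change v ((T ^ (-(n + 1))) (T x)) = v ((T ^ (-n)) x)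
    rw [← hone x, ← hadd]
    congr 3
    ring_nf
  have hP0 : ∀ n : ℤ, (T ^ n) u ≠ 0 := by
    intro n h0
    apply hu
    exact (T ^ n).map_eq_zero_iff.mp h0
  have hQ0 : ∀ n : ℤ, v.comp ((T ^ n : X ≃L[ℂ] X) : X →L[ℂ] X) ≠ 0 := by
    intro n h0
    apply hv
    ext x
    have h1 : v ((T ^ n) ((T ^ (-n)) x)) = 0 := by
      have := congrArg (fun w : X →L[ℂ] ℂ => w ((T ^ (-n)) x)) h0
      simpa using this
    rw [← hadd, add_neg_cancel, hzero] at h1
    simpa using h1
  set L : ℝ := max ‖(T : X →L[ℂ] X)‖ ‖(T.symm : X →L[ℂ] X)‖ with hL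
  rcases hmin with hm | hm
  · obtain ⟨y, hy1, hy2⟩ := exists_sep _ _ hm
    refine h X (T : X →L[ℂ] X) (fun n => (T ^ n) u)
      (fun n => v.comp ((T ^ (-n) : X ≃L[ℂ] X) : X →L[ℂ] X))
      (fun m => y.comp ((T ^ (-m) : X ≃L[ℂ] X) : X →L[ℂ] X))
      (fun n => ‖(T ^ n) u‖) L C k ?_ ?_ ?_ ?_ ?_ ?_ ?_ ?_ ?_
    · exact fun n => hT1 n
    · exact fun n => hcomp n
    · exact hQ0 (-0)
    · intro m n
      change y ((T ^ (-m)) ((T ^ n) u)) = _
      rw [← hadd]
      by_cases hmn : m = n
      · subst hmn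
        rw [neg_add_cancel, hzero, hy1, if_pos rfl]
      · rw [if_neg hmn]
        apply hy2
        apply Submodule.subset_span
        exact ⟨-m + n, fun hc => hmn (by linarith), rfl⟩
    · exact fun n => norm_pos_iff.mpr (hP0 n)
    · intro n
      rw [← hT1 n]
      calc ‖T ((T ^ n) u)‖ ≤ ‖(T : X →L[ℂ] X)‖ * ‖(T ^ n) u‖ :=
            (T : X →L[ℂ] X).le_opNorm _
        _ ≤ L * ‖(T ^ n) u‖ :=
            mul_le_mul_of_nonneg_right (le_max_left _ _) (norm_nonneg _)
    · intro n
      have h1 : (T ^ n) u = T.symm ((T ^ (n + 1)) u) := by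
        rw [← hT1 n, T.symm_apply_apply]
      calc ‖(T ^ n) u‖ = ‖T.symm ((T ^ (n + 1)) u)‖ := by rw [← h1]
        _ ≤ ‖(T.symm : X →L[ℂ] X)‖ * ‖(T ^ (n + 1)) u‖ :=
            (T.symm : X →L[ℂ] X).le_opNorm _
        _ ≤ L * ‖(T ^ (n + 1)) u‖ :=
            mul_le_mul_of_nonneg_right (le_max_right _ _) (norm_nonneg _)
    · exact fun n => le_refl _
    · intro n
      rw [mul_comm]
      exact hbd n
  · obtain ⟨y, hy1, hy2⟩ := exists_sep _ _ hm
    -- precomposition with a power of `T`
    let pre : ℤ → ((X →L[ℂ] ℂ) →L[ℂ] (X →L[ℂ] ℂ)) := fun m =>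
      (ContinuousLinearMap.compL ℂ X X ℂ).flip ((T ^ m : X ≃L[ℂ] X) : X →L[ℂ] X)
    have hpre : ∀ (m : ℤ) (w : X →L[ℂ] ℂ),
        pre m w = w.comp ((T ^ m : X ≃L[ℂ] X) : X →L[ℂ] X) := fun m w => rfl
    refine h2 X (T : X →L[ℂ] X) (fun n => (T ^ n) u)
      (fun n => v.comp ((T ^ (-n) : X ≃L[ℂ] X) : X →L[ℂ] X))
      (fun m => y.comp (pre m))
      (fun n => ‖v.comp ((T ^ (-n) : X ≃L[ℂ] X) : X →L[ℂ] X)‖) L C k ?_ ?_ ?_ ?_ ?_ ?_ ?_ ?_ ?_
    · exact fun n => hT1 n
    · exact fun n => hcomp n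
    · exact hP0 0
    · intro m n
      change y (pre m (v.comp ((T ^ (-n) : X ≃L[ℂ] X) : X →L[ℂ] X))) = _
      have h3 : pre m (v.comp ((T ^ (-n) : X ≃L[ℂ] X) : X →L[ℂ] X)) =
          v.comp ((T ^ (-n + m) : X ≃L[ℂ] X) : X →L[ℂ] X) := by
        rw [hpre]
        ext x
        change v ((T ^ (-n)) ((T ^ m) x)) = v ((T ^ (-n + m)) x)
        rw [hadd]
      rw [h3]
      by_cases hmn : m = n
      · subst hmn
        rw [neg_add_cancel, if_pos rfl]
        have h4 : v.comp ((T ^ (0 : ℤ) : X ≃L[ℂ] X) : X →L[ℂ] X) = v := by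
          ext x
          change v ((T ^ (0 : ℤ)) x) = v x
          rw [hzero]
        rw [h4, hy1]
      · rw [if_neg hmn]
        apply hy2
        apply Submodule.subset_span
        exact ⟨-n + m, fun hc => hmn (by linarith), rfl⟩
    · exact fun n => norm_pos_iff.mpr (hQ0 (-n))
    · intro n
      have h1 : v.comp ((T ^ (-(n + 1)) : X ≃L[ℂ] X) : X →L[ℂ] X) =
          (v.comp ((T ^ (-n) : X ≃L[ℂ] X) : X →L[ℂ] X)).comp (T.symm : X →L[ℂ] X) := by
        rw [← hcomp n]
        ext x
        change v ((T ^ (-(n + 1))) x) = v ((T ^ (-(n + 1))) (T (T.symm x)))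
        rw [T.apply_symm_apply]
      rw [h1, mul_comm]
      exact (ContinuousLinearMap.opNorm_comp_le _ _).trans
        (mul_le_mul_of_nonneg_left (le_max_right _ _) (norm_nonneg _))
    · intro n
      rw [← hcomp n, mul_comm]
      exact (ContinuousLinearMap.opNorm_comp_le _ _).trans
        (mul_le_mul_of_nonneg_left (le_max_left _ _) (norm_nonneg _))
    · exact fun n => le_refl _
    · exact fun n => hbd n

end Pool.Agent.BShift
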