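import Pool.Agent.Lib_helper94.BShift.Defs

/-!
# Module M6: a nonvanishing sum along a sequence of vectors
-/

set_option autoImplicit false

namespace Pool.Agent.BShift

open scoped ENNReal

universe u

theorem exists_indep {Y : Type u} [NormedAddCommGroup Y] [NormedSpace ℂ Y]
    (w : ℤ → Y) (h0 : w 0 ≠ 0)
    (hfd : ¬ FiniteDimensional ℂ (Submodule.span ℂ (Set.range w))) (j : ℕ) :
    ∃ E : Finset ℤ, (0 : ℤ) ∉ E ∧ E.card = j ∧
      LinearIndepOn ℂ w ((insert 0 E : Finset ℤ) : Set ℤ) := by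
  classical
  induction j with
  | zero =>
    refine ⟨∅, by simp, by simp, ?_⟩
    simpa using h0
  | succ j ih =>
    obtain ⟨E, hE0, hEc, hE⟩ := ih
    have hex : ∃ n, w n ∉ Submodule.span ℂ (w '' ((insert 0 E : Finset ℤ) : Set ℤ)) := by
      by_contra hcon
      push Not at hcon
      apply hfd
      have hle : Submodule.span ℂ (Set.range w) ≤
          Submodule.span ℂ (w '' ((insert 0 E : Finset ℤ) : Set ℤ)) := by
        rw [Submodule.span_le]
        rintro _ ⟨n, rfl⟩
        exact hcon n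
      have hfin : FiniteDimensional ℂ
          (Submodule.span ℂ (w '' ((insert 0 E : Finset ℤ) : Set ℤ))) :=
        FiniteDimensional.span_of_finite ℂ (((insert 0 E : Finset ℤ).finite_toSet).image w)
      exact Submodule.finiteDimensional_of_le hle
    obtain ⟨n, hn⟩ := hex
    have hnin : n ∉ (insert 0 E : Finset ℤ) := by
      intro hmem
      exact hn (Submodule.subset_span ⟨n, hmem, rfl⟩)
    have hn0 : n ≠ 0 := by
      rintro rfl
      exact hnin (Finset.mem_insert_self _ _)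
    have hnE : n ∉ E := fun h => hnin (Finset.mem_insert_of_mem h)
    refine ⟨insert n E, ?_, ?_, ?_⟩
    · simp [hE0, hn0.symm]
    · rw [Finset.card_insert_of_notMem hnE, hEc]
    · have := hE.insert hn
      rw [Finset.insert_comm, Finset.coe_insert]
      exact this

theorem exists_functional {Y : Type u} [NormedAddCommGroup Y] [NormedSpace ℂ Y]
    (w : ℤ → Y) (E : Finset ℤ) (hE0 : (0 : ℤ) ∉ E)
    (hE : LinearIndepOn ℂ w ((insert 0 E : Finset ℤ) : Set ℤ)) :
    ∃ φ : Y →L[ℂ] ℂ, φ (w 0) ≠ 0 ∧ ∀ e ∈ E, φ (w e) = 0 := by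
  classical
  have hnot : w 0 ∉ Submodule.span ℂ (w '' (E : Set ℤ)) := by
    rw [Finset.coe_insert] at hE
    exact hE.notMem_span_of_insert (by simpa using hE0)
  obtain ⟨ψ, hψ0, hψ⟩ := Submodule.exists_le_ker_of_notMem hnot
  let F : Submodule ℂ Y := Submodule.span ℂ (w '' ((insert 0 E : Finset ℤ) : Set ℤ))
  have hfin : FiniteDimensional ℂ F :=
    FiniteDimensional.span_of_finite ℂ (((insert 0 E : Finset ℤ).finite_toSet).image w)
  obtain ⟨φ, hφ, -⟩ := exists_extension_norm_eq F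
    (LinearMap.toContinuousLinearMap (ψ.comp F.subtype))
  have hmem : ∀ n ∈ (insert 0 E : Finset ℤ), φ (w n) = ψ (w n) := by
    intro n hn
    have h1 : w n ∈ F := Submodule.subset_span ⟨n, hn, rfl⟩
    have := hφ ⟨w n, h1⟩
    simpa using this
  refine ⟨φ, ?_, ?_⟩
  · rw [hmem 0 (Finset.mem_insert_self _ _)]
    exact hψ0
  · intro e he
    rw [hmem e (Finset.mem_insert_of_mem he)]
    have : w e ∈ LinearMap.ker ψ := hψ (Submodule.subset_span ⟨e, he, rfl⟩)
    simpa using this


theorem summable_rho4 : Summable (fun n : ℤ => 1 / (1 + |(n : ℝ)|) ^ 4) := by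
  have h : Summable (fun n : ℤ => 1 / |(n : ℝ)| ^ 2) := by
    have := (Real.summable_one_div_int_pow (p := 2)).2 (by norm_num)
    simpa [sq_abs] using this
  refine Summable.of_norm_bounded_eventually h ?_
  have hfin : {n : ℤ | ¬ ‖1 / (1 + |(n : ℝ)|) ^ 4‖ ≤ 1 / |(n : ℝ)| ^ 2} ⊆ {0} := by
    intro n hn
    by_contra hne
    apply hn
    have hn0 : n ≠ 0 := hne
    have h1 : (1 : ℝ) ≤ |(n : ℝ)| := by
      rw [← Int.cast_abs]
      exact_mod_cast Int.one_le_abs hn0
    rw [Real.norm_of_nonneg (by positivity)]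
    apply one_div_le_one_div_of_le (by positivity)
    calc |(n : ℝ)| ^ 2 ≤ (1 + |(n : ℝ)|) ^ 2 := by
          apply pow_le_pow_left₀ (by positivity); linarith
      _ ≤ (1 + |(n : ℝ)|) ^ 4 := by
          apply pow_le_pow_right₀ (by linarith) (by norm_num)
  exact (Set.finite_singleton (0 : ℤ)).subset hfin

theorem nonvan (h : PairStmt) : NonvanStmt.{u} := by
  intro Y _ _ _ w P L C k hw0 hfd hP hL1 hL2 hw
  classical
  obtain ⟨E, hE0, hEc, hE⟩ := exists_indep w hw0 hfd (k + 6)
  obtain ⟨φ, hφ0, hφE⟩ := exists_functional w E hE0 hE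
  obtain ⟨C₁, hC₁, hpair⟩ := h E hE0 (by omega)
  have hP0 : 0 < P 0 := hP 0
  -- constants
  set S : ℝ := ∑' n : ℤ, 1 / (1 + |(n : ℝ)|) ^ 4 with hS
  have hS0 : 0 ≤ S := tsum_nonneg fun n => by positivity
  have hC0 : 0 ≤ C := by
    have h1 := hw 0
    have h2 : 0 ≤ ‖w 0‖ * P 0 := by positivity
    simpa using h2.trans h1
  set K : ℝ := C₁ * C / P 0 with hK
  have hK0 : 0 ≤ K := by positivity
  set ε : ℝ := min (1 / 2) (‖φ (w 0)‖ / (2 * (‖φ‖ * (K * S) + 1))) with hε
  have hφn : 0 < ‖φ (w 0)‖ := norm_pos_iff.2 hφ0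
  have hε0 : 0 < ε := by
    rw [hε]; apply lt_min (by norm_num); positivity
  obtain ⟨f, g, hf0, hfb, horth, hg⟩ := hpair (fun n => P n / P 0) L
    (fun n => div_pos (hP n) hP0) (div_self hP0.ne')
    (fun n => by
      have := hL1 n
      rw [← mul_div_assoc]
      exact div_le_div_of_nonneg_right this hP0.le)
    (fun n => by
      have := hL2 n
      rw [← mul_div_assoc]
      exact div_le_div_of_nonneg_right this hP0.le) ε hε0 (min_le_left _ _)
  refine ⟨f, g, hf0, ⟨C₁ * P 0, fun n => ?_⟩, horth, ?_⟩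
  · have := hfb n
    have h1 : ‖f n‖ * (P n * (1 + |(n : ℝ)|) ^ 2) =
        ‖f n‖ * (P n / P 0 * (1 + |(n : ℝ)|) ^ 2) * P 0 := by
      field_simp
    rw [h1]
    exact mul_le_mul_of_nonneg_right this hP0.le
  rcases hg with ⟨hgE, e, he, hge⟩ | ⟨hg0, hgb⟩
  · -- finitely supported
    have hfs : ∀ n ∉ E, ‖g n‖ * ‖w n‖ = 0 := fun n hn => by rw [hgE n hn]; simp
    refine ⟨summable_of_ne_finset_zero hfs, ?_⟩
    rw [tsum_eq_sum (s := E) (fun n hn => by rw [hgE n hn, zero_smul])]
    intro hsum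
    have hEE : LinearIndepOn ℂ w (E : Set ℤ) := hE.mono (by simp)
    have := (linearIndepOn_finset_iff.1 hEE) g hsum e he
    exact hge this
  · -- main case
    have hterm : ∀ n : ℤ, n ∉ E → n ≠ 0 →
        ‖g n‖ * ‖w n‖ ≤ ε * K * (1 / (1 + |(n : ℝ)|) ^ 4) := by
      intro n hnE hn0
      have h1 := hgb n hnE hn0
      have h2 := hw n
      rw [hEc] at h1
      have hPn := hP n
      have hr : (0 : ℝ) < 1 + |(n : ℝ)| := by positivity
      set r : ℝ := 1 + |(n : ℝ)| with hrdef
      -- combine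
      have h3 : (‖g n‖ * r ^ (k + 6)) * (‖w n‖ * P n) ≤
          (ε * C₁ * (P n / P 0 * r ^ 2)) * (C * r ^ k) := by
        apply mul_le_mul h1 h2 (by positivity) (by positivity)
      have h4 : (‖g n‖ * ‖w n‖) * (r ^ (k + 6) * P n) ≤
          (ε * K * (1 / r ^ 4)) * (r ^ (k + 6) * P n) := by
        calc (‖g n‖ * ‖w n‖) * (r ^ (k + 6) * P n)
            = (‖g n‖ * r ^ (k + 6)) * (‖w n‖ * P n) := by ring
          _ ≤ (ε * C₁ * (P n / P 0 * r ^ 2)) * (C * r ^ k) := h3
          _ = (ε * K * (1 / r ^ 4)) * (r ^ (k + 6) * P n) := by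
            rw [hK]
            field_simp
            ring
      exact le_of_mul_le_mul_right h4 (by positivity)
    have hsummable : Summable (fun n => ‖g n‖ * ‖w n‖) := by
      have hbig : Summable (fun n : ℤ => ε * K * (1 / (1 + |(n : ℝ)|) ^ 4)) :=
        summable_rho4.mul_left _
      refine Summable.of_norm_bounded_eventually hbig ?_
      refine (insert 0 E).finite_toSet.subset ?_
      intro n hn
      by_contra hne
      apply hn
      have hne' : ¬ (n = 0 ∨ n ∈ E) := by simpa using hne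
      push Not at hne'
      show ‖‖g n‖ * ‖w n‖‖ ≤ ε * K * (1 / (1 + |(n : ℝ)|) ^ 4)
      rw [Real.norm_of_nonneg (by positivity)]
      exact hterm n hne'.2 hne'.1
    refine ⟨hsummable, ?_⟩
    have hsw : Summable (fun n => g n • w n) :=
      Summable.of_norm (by simpa [norm_smul] using hsummable)
    intro hzero
    have h5 : φ (∑' n, g n • w n) = ∑' n, g n * φ (w n) := by
      rw [φ.map_tsum hsw]
      simp
    have hsφ : Summable (fun n => g n * φ (w n)) := by
      have := φ.summable hsw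
      simpa using this
    rw [hzero, map_zero] at h5
    have h6 := hsφ.tsum_eq_add_tsum_ite (0 : ℤ)
    rw [← h5, hg0, one_mul] at h6
    have h7 : ‖∑' n : ℤ, (if n = 0 then 0 else g n * φ (w n))‖ ≤
        ∑' n : ℤ, ‖φ‖ * (ε * K * (1 / (1 + |(n : ℝ)|) ^ 4)) := by
      apply tsum_of_norm_bounded ((summable_rho4.mul_left _).mul_left _).hasSum
      intro n
      by_cases hn0 : n = 0
      · rw [if_pos hn0, norm_zero]; positivity
      rw [if_neg hn0]
      by_cases hnE : n ∈ E
      · rw [hφE n hnE, mul_zero, norm_zero]; positivity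
      · rw [norm_mul]
        calc ‖g n‖ * ‖φ (w n)‖ ≤ ‖g n‖ * (‖φ‖ * ‖w n‖) := by
              apply mul_le_mul_of_nonneg_left (φ.le_opNorm _) (norm_nonneg _)
          _ = ‖φ‖ * (‖g n‖ * ‖w n‖) := by ring
          _ ≤ _ := by
              apply mul_le_mul_of_nonneg_left (hterm n hnE hn0) (norm_nonneg _)
    rw [tsum_mul_left, tsum_mul_left, ← hS] at h7
    have h8 : ‖φ (w 0)‖ ≤ ‖φ‖ * (ε * K * S) := by
      have : φ (w 0) = -∑' n : ℤ, (if n = 0 then 0 else g n * φ (w n)) := by
        linear_combination -h6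
      rw [this, norm_neg]
      exact h7
    have h9 : ε ≤ ‖φ (w 0)‖ / (2 * (‖φ‖ * (K * S) + 1)) := min_le_right _ _
    have h10 : ‖φ‖ * (ε * K * S) < ‖φ (w 0)‖ := by
      have hQ : 0 ≤ ‖φ‖ * (K * S) := by positivity
      rw [le_div_iff₀ (by positivity)] at h9
      nlinarith
    linarith

end Pool.Agent.BShift
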