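import Pool.Agent.Lib_helper94.BShift.Defs

/-!
# The two sequences (step 4): passage to the limit
-/

set_option autoImplicit false

open Filter Topology

namespace Pool.Agent.BShift

lemma growth_one {P : ℤ → ℝ} {L : ℝ} (hP : ∀ n, 0 < P n) (h1 : ∀ n, P (n + 1) ≤ L * P n)
    (h2 : ∀ n, P n ≤ L * P (n + 1)) : 1 ≤ L := by
  have a := hP 0
  have b := hP (0 + 1)
  have c := h1 0
  have d := h2 0
  by_contra hlt
  push Not at hlt
  have e1 := mul_lt_mul_of_pos_right hlt a
  have e2 := mul_lt_mul_of_pos_right hlt b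
  linarith

lemma growth_nat {P : ℤ → ℝ} {L : ℝ} (hP : ∀ n, 0 < P n) (h1 : ∀ n, P (n + 1) ≤ L * P n)
    (h2 : ∀ n, P n ≤ L * P (n + 1)) (n : ℤ) (d : ℕ) :
    P (n + d) ≤ L ^ d * P n ∧ P n ≤ L ^ d * P (n + d) := by
  have hL := growth_one hP h1 h2
  induction d with
  | zero => simp
  | succ d ih =>
    have e : n + ((d + 1 : ℕ) : ℤ) = n + d + 1 := by push_cast; ring
    rw [e]
    constructor
    · calc P (n + d + 1) ≤ L * P (n + d) := h1 _
        _ ≤ L * (L ^ d * P n) := mul_le_mul_of_nonneg_left ih.1 (by linarith)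
        _ = L ^ (d + 1) * P n := by ring
    · calc P n ≤ L ^ d * P (n + d) := ih.2
        _ ≤ L ^ d * (L * P (n + d + 1)) :=
          mul_le_mul_of_nonneg_left (h2 _) (pow_nonneg (by linarith) _)
        _ = L ^ (d + 1) * P (n + d + 1) := by ring

lemma growth_int {P : ℤ → ℝ} {L : ℝ} (hP : ∀ n, 0 < P n) (h1 : ∀ n, P (n + 1) ≤ L * P n)
    (h2 : ∀ n, P n ≤ L * P (n + 1)) (m n : ℤ) : P m ≤ L ^ (m - n).natAbs * P n := by
  rcases le_total n m with h | h
  · have e : n + ((m - n).natAbs : ℤ) = m := by omega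
    have := (growth_nat hP h1 h2 n (m - n).natAbs).1
    rwa [e] at this
  · have e : m + ((m - n).natAbs : ℤ) = n := by omega
    have := (growth_nat hP h1 h2 m (m - n).natAbs).2
    rwa [e] at this

lemma summable_inv_sq : Summable (fun n : ℤ => ((1 + |(n : ℝ)|) ^ 2)⁻¹) := by
  have h1 : Summable (fun n : ℕ => (((n : ℝ)) ^ 2)⁻¹) := (Real.summable_nat_pow_inv).2 (by norm_num)
  have h2 := (summable_nat_add_iff 1).2 h1
  refine Summable.of_nat_of_neg ?_ ?_
  · refine h2.congr fun n => ?_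
    have : |(((n : ℤ)) : ℝ)| = n := by simp
    rw [this]
    push_cast
    ring
  · refine h2.congr fun n => ?_
    have : |((-(n : ℤ) : ℤ) : ℝ)| = n := by simp
    rw [this]
    push_cast
    ring

/-- **Step 4** -/
theorem pair (h2 : Geometry) (h3 : LevelStmt) : PairStmt := by
  classical
  intro E hE0 hE4
  have hEne : E.Nonempty := Finset.card_pos.1 (by omega)
  obtain ⟨C, hC1, hlev⟩ := h3 E hE0 hEne
  have hC0 : 0 < C := by linarith
  refine ⟨C * C, by nlinarith, ?_⟩
  intro P L hP hP0 hL1 hL2 ε hε0 hε1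
  have hL : 1 ≤ L := growth_one hP hL1 hL2
  obtain ⟨N0, hN0⟩ : ∃ N0 : ℕ, ∀ e ∈ E, |e| ≤ (N0 : ℤ) := by
    refine ⟨∑ e ∈ E, e.natAbs, fun e he => ?_⟩
    have := Finset.single_le_sum (f := fun e : ℤ => e.natAbs) (fun _ _ => Nat.zero_le _) he
    have h3 : e.natAbs ≤ ∑ e ∈ E, e.natAbs := this
    rw [Int.abs_eq_natAbs]
    exact_mod_cast h3
  obtain ⟨R, hR⟩ : ∃ R : ℕ → ℤ, ∀ j, R j = (j : ℤ) + N0 + 1 := ⟨_, fun _ => rfl⟩
  have hRpos : ∀ j, 0 < R j := fun j => by rw [hR]; omega
  have hRE : ∀ j, ∀ e ∈ E, |e| ≤ R j := fun j e he => by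
    have := hN0 e he
    rw [hR]; omega
  choose f g s hs0 hs1 hf hne hg hsg hg0 hgE hone horth using
    fun j => hlev P hP hP0 ε hε0 hε1 (R j) (hRpos j) (hRE j)
  -- geometry
  have hrho : ∀ j n, |n| ≤ 2 * R j → rho (R j) n = 1 + |(n : ℝ)| := by
    intro j n hn
    unfold rho
    rw [h2.dm_eq_abs (4 * R j) n (by have := hRpos j; omega) (by omega)]
    push_cast
    ring
  have hpw : ∀ j n, |n| ≤ R j → pw P (R j) n = P n := by
    intro j n hn
    unfold pw
    rw [h2.fold_eq (R j) n (hRpos j) hn]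
  have hrho1 : ∀ j n, 1 ≤ rho (R j) n := by
    intro j n
    unfold rho
    have := h2.dm_nonneg (4 * R j) n (by have := hRpos j; omega)
    have h' : (0 : ℝ) ≤ (dm (4 * R j) n : ℝ) := by exact_mod_cast this
    linarith
  have hpwpos : ∀ j n, 0 < pw P (R j) n := fun j n => hP _
  have hone1 : ∀ n : ℤ, (1 : ℝ) ≤ 1 + |(n : ℝ)| := fun n => by
    have := abs_nonneg (n : ℝ); linarith
  -- truncated functions
  obtain ⟨F, hF⟩ : ∃ F : ℕ → ℤ → ℂ, ∀ j n, F j n = if |n| ≤ R j then f j n else 0 :=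
    ⟨_, fun _ _ => rfl⟩
  obtain ⟨G, hG⟩ : ∃ G : ℕ → ℤ → ℂ, ∀ j n, G j n = if |n| ≤ R j then g j n else 0 :=
    ⟨_, fun _ _ => rfl⟩
  have hgb : ∀ j n, |n| ≤ R j → ‖g j n‖ ≤ C * P n * (1 + |(n : ℝ)|) ^ 2 := by
    intro j n hn
    have hq : (1 : ℝ) ≤ (1 + |(n : ℝ)|) ^ 2 := one_le_pow₀ (hone1 n)
    have hPn := hP n
    by_cases hnE : n ∈ E
    · have := hgE j n hnE
      have h4 : P n ≤ C * P n := by nlinarith
      have h5 : C * P n ≤ C * P n * (1 + |(n : ℝ)|) ^ 2 := le_mul_of_one_le_right (by positivity) hq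
      linarith
    · by_cases hn0 : n = 0
      · subst hn0
        have := hg0 j
        rw [hP0]
        simpa using this
      · have hI : n ∈ Finset.Ico (-2 * R j) (2 * R j) := by
          rw [Finset.mem_Ico]
          have := hRpos j
          have := abs_le.1 hn
          omega
        have := hg j n hI hnE hn0
        have hr : rho (R j) n = 1 + |(n : ℝ)| := hrho j n (by have := hRpos j; omega)
        rw [hr, hpw j n hn] at this
        have h6 : ‖g j n‖ ≤ ‖g j n‖ * (1 + |(n : ℝ)|) ^ E.card :=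
          le_mul_of_one_le_right (norm_nonneg _) (one_le_pow₀ (hone1 n))
        have h7 : s j * ε * C * (P n * (1 + |(n : ℝ)|) ^ 2) ≤
            1 * C * (P n * (1 + |(n : ℝ)|) ^ 2) := by
          refine mul_le_mul_of_nonneg_right ?_ (by positivity)
          refine mul_le_mul_of_nonneg_right ?_ hC0.le
          have := hs0 j
          have := hs1 j
          nlinarith
        calc ‖g j n‖ ≤ 1 * C * (P n * (1 + |(n : ℝ)|) ^ 2) := (h6.trans this).trans h7
          _ = C * P n * (1 + |(n : ℝ)|) ^ 2 := by ring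
  have hFb : ∀ j n, ‖F j n‖ ≤ C / (P n * (1 + |(n : ℝ)|) ^ 2) := by
    intro j n
    have hPn := hP n
    have hq : (1 : ℝ) ≤ (1 + |(n : ℝ)|) ^ 2 := one_le_pow₀ (hone1 n)
    rw [hF]
    split_ifs with hn
    · rw [le_div_iff₀ (by positivity)]
      have := hf j n
      rwa [hpw j n hn, hrho j n (by have := hRpos j; omega)] at this
    · rw [norm_zero]; positivity
  have hGb : ∀ j n, ‖G j n‖ ≤ C * P n * (1 + |(n : ℝ)|) ^ 2 := by
    intro j n
    have hPn := hP n
    rw [hG]
    split_ifs with hn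
    · exact hgb j n hn
    · rw [norm_zero]; positivity
  -- compactness
  have hK : IsCompact ((Set.univ.pi fun n : ℤ => Metric.closedBall (0 : ℂ)
      (C / (P n * (1 + |(n : ℝ)|) ^ 2))) ×ˢ ((Set.univ.pi fun n : ℤ => Metric.closedBall (0 : ℂ)
      (C * P n * (1 + |(n : ℝ)|) ^ 2)) ×ˢ (Set.Icc (0 : ℝ) 1))) :=
    (isCompact_univ_pi fun n => isCompact_closedBall _ _).prod
      ((isCompact_univ_pi fun n => isCompact_closedBall _ _).prod isCompact_Icc)
  obtain ⟨⟨f', g', s'⟩, hmem, φ, hφ, hlim⟩ := hK.tendsto_subseq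
    (x := fun j => (F j, G j, s j)) (fun j => by
      refine ⟨fun n _ => ?_, fun n _ => ?_, hs0 j, hs1 j⟩
      · rw [mem_closedBall_zero_iff]; exact hFb j n
      · rw [mem_closedBall_zero_iff]; exact hGb j n)
  have hlimF : ∀ n, Tendsto (fun j => F (φ j) n) atTop (𝓝 (f' n)) := fun n =>
    tendsto_pi_nhds.1 ((continuous_fst.tendsto _).comp hlim) n
  have hlimG : ∀ n, Tendsto (fun j => G (φ j) n) atTop (𝓝 (g' n)) := fun n =>
    tendsto_pi_nhds.1 (((continuous_fst.comp continuous_snd).tendsto _).comp hlim) n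
  have hlims : Tendsto (fun j => s (φ j)) atTop (𝓝 s') :=
    ((continuous_snd.comp continuous_snd).tendsto _).comp hlim
  have hev : ∀ M : ℤ, ∀ᶠ j in atTop, M ≤ R (φ j) := by
    intro M
    filter_upwards [eventually_ge_atTop M.natAbs] with j hj
    have h4 : j ≤ φ j := hφ.le_apply
    rw [hR]
    have : M ≤ (M.natAbs : ℤ) := Int.le_natAbs
    have h5 : (M.natAbs : ℤ) ≤ (φ j : ℤ) := by exact_mod_cast hj.trans h4
    omega
  have hlimf : ∀ n, Tendsto (fun j => f (φ j) n) atTop (𝓝 (f' n)) := by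
    intro n
    refine (hlimF n).congr' ?_
    filter_upwards [hev |n|] with j hj
    rw [hF, if_pos hj]
  have hlimg : ∀ n, Tendsto (fun j => g (φ j) n) atTop (𝓝 (g' n)) := by
    intro n
    refine (hlimG n).congr' ?_
    filter_upwards [hev |n|] with j hj
    rw [hG, if_pos hj]
  -- limits of the relations
  have r1 : ∀ n, ‖f' n‖ * (P n * (1 + |(n : ℝ)|) ^ 2) ≤ C := by
    intro n
    have hPn := hP n
    have hq : (1 : ℝ) ≤ (1 + |(n : ℝ)|) ^ 2 := one_le_pow₀ (hone1 n)
    have h4 := hmem.1 n (Set.mem_univ n)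
    rw [mem_closedBall_zero_iff, le_div_iff₀ (by positivity)] at h4
    exact h4
  have r2 : ε ≤ ‖f' 0‖ + ∑ e ∈ E, ‖f' e‖ * P e := by
    refine ge_of_tendsto' (f := fun j => ‖f (φ j) 0‖ + ∑ e ∈ E, ‖f (φ j) e‖ * P e) (x := atTop)
      ?_ fun j => hne (φ j)
    exact (hlimf 0).norm.add (tendsto_finsetSum _ fun e _ => (hlimf e).norm.mul_const _)
  have r3 : ∀ n : ℤ, n ∉ E → n ≠ 0 → ‖g' n‖ * (1 + |(n : ℝ)|) ^ E.card ≤
      s' * ε * C * (P n * (1 + |(n : ℝ)|) ^ 2) := by
    intro n hnE hn0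
    refine le_of_tendsto_of_tendsto (f := fun j => ‖g (φ j) n‖ * (1 + |(n : ℝ)|) ^ E.card)
      (g := fun j => s (φ j) * ε * C * (P n * (1 + |(n : ℝ)|) ^ 2)) (b := atTop)
      ((hlimg n).norm.mul_const _) (((hlims.mul_const _).mul_const _).mul_const _) ?_
    filter_upwards [hev |n|] with j hj
    have hI : n ∈ Finset.Ico (-2 * R (φ j)) (2 * R (φ j)) := by
      rw [Finset.mem_Ico]
      have := hRpos (φ j)
      have := abs_le.1 hj
      omega
    have := hg (φ j) n hI hnE hn0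
    rwa [hrho (φ j) n (by have := hRpos (φ j); omega), hpw (φ j) n hj] at this
  have r4 : s' ≤ C * ‖g' 0‖ :=
    le_of_tendsto_of_tendsto' hlims ((hlimg 0).norm.const_mul C) fun j => hsg (φ j)
  have r5 : 1 ≤ s' + ∑ e ∈ E, ‖g' e‖ / P e := by
    refine ge_of_tendsto' (f := fun j => s (φ j) + ∑ e ∈ E, ‖g (φ j) e‖ / P e) (x := atTop)
      ?_ fun j => hone (φ j)
    exact hlims.add (tendsto_finsetSum _ fun e _ => (hlimg e).norm.div_const _)
  have r0 : 0 ≤ s' := hmem.2.2.1
  -- orthogonality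
  have r6 : ∀ k : ℤ, ∑' m : ℤ, f' (m - k) * g' m = 0 := by
    intro k
    obtain ⟨a, ha⟩ : ∃ a : ℕ → ℤ → ℂ, ∀ j x, a j x =
        if x ∈ Finset.Ico (-2 * R (φ j)) (2 * R (φ j)) then f (φ j) (x - k) * g (φ j) x else 0 :=
      ⟨_, fun _ _ => rfl⟩
    obtain ⟨B, hB1, hB⟩ : ∃ B : ℝ, 1 ≤ B ∧ ∀ x ∈ insert 0 E, (1 + |((x : ℤ) : ℝ)|) ^ 2 ≤ B := by
      refine ⟨∑ e ∈ insert 0 E, (1 + |(e : ℝ)|) ^ 2, ?_, fun x hx => ?_⟩
      · have := Finset.single_le_sum (f := fun e : ℤ => (1 + |(e : ℝ)|) ^ 2)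
          (fun _ _ => by positivity) (Finset.mem_insert_self 0 E)
        refine le_trans ?_ this
        simp
      · exact Finset.single_le_sum (f := fun e : ℤ => (1 + |(e : ℝ)|) ^ 2)
          (fun _ _ => by positivity) hx
    have hbound : ∀ j x, ‖a j x‖ ≤ C * C * L ^ k.natAbs * B * ((1 + |(x : ℝ)|) ^ 2)⁻¹ := by
      intro j x
      have hLk : 1 ≤ L ^ k.natAbs := one_le_pow₀ hL
      have hnn : 0 ≤ C * C * L ^ k.natAbs * B * ((1 + |(x : ℝ)|) ^ 2)⁻¹ := by positivity
      rw [ha]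
      split_ifs with hx
      swap
      · rw [norm_zero]; exact hnn
      set i := φ j with hi
      have hxI := Finset.mem_Ico.1 hx
      have hx2 : |x| ≤ 2 * R i := by rw [abs_le]; omega
      have hrx := hrho i x hx2
      -- the bound for `f`
      have hp1 := hpwpos i (x - k)
      have hfx : ‖f i (x - k)‖ * pw P (R i) (x - k) ≤ C := by
        have := hf i (x - k)
        have h4 : pw P (R i) (x - k) ≤ pw P (R i) (x - k) * rho (R i) (x - k) ^ 2 :=
          le_mul_of_one_le_right hp1.le (one_le_pow₀ (hrho1 i _))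
        exact (mul_le_mul_of_nonneg_left h4 (norm_nonneg _)).trans this
      -- ratio
      have hratio : pw P (R i) x ≤ L ^ k.natAbs * pw P (R i) (x - k) := by
        unfold pw
        refine (growth_int hP hL1 hL2 (fold (R i) x) (fold (R i) (x - k))).trans ?_
        refine mul_le_mul_of_nonneg_right ?_ (hP _).le
        refine pow_le_pow_right₀ hL ?_
        have h5 := h2.fold_lip (R i) x (x - k) (hRpos i)
        have h6 : x - (x - k) = k := by ring
        rw [h6] at h5
        rw [Int.abs_eq_natAbs, Int.abs_eq_natAbs] at h5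
        omega
      -- the bound for `g`
      have hgx : ‖g i x‖ ≤ C * pw P (R i) x * (B * ((1 + |(x : ℝ)|) ^ 2)⁻¹) := by
        have hp0 := hpwpos i x
        have hq : (1 : ℝ) ≤ (1 + |(x : ℝ)|) ^ 2 := one_le_pow₀ (hone1 x)
        by_cases hxE : x ∈ insert 0 E
        · have h7 : 1 ≤ B * ((1 + |(x : ℝ)|) ^ 2)⁻¹ := by
            rw [← div_eq_mul_inv, one_le_div (by positivity)]
            exact hB x hxE
          have h8 : ‖g i x‖ ≤ C * pw P (R i) x := by
            rcases Finset.mem_insert.1 hxE with h | h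
            · subst h
              rw [hpw i 0 (by have := hRpos i; simp; omega), hP0, mul_one]
              exact hg0 i
            · rw [hpw i x (hRE i x h)]
              have := hgE i x h
              have := hP x
              nlinarith
          exact h8.trans (le_mul_of_one_le_right (by positivity) h7)
        · rw [Finset.mem_insert, not_or] at hxE
          have h9 := hg i x hx hxE.2 hxE.1
          rw [hrx] at h9
          have hr1 := hone1 x
          have h10 : (1 + |(x : ℝ)|) ^ 4 ≤ (1 + |(x : ℝ)|) ^ E.card := pow_le_pow_right₀ hr1 hE4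
          have h11 : ‖g i x‖ * (1 + |(x : ℝ)|) ^ 4 ≤ C * (pw P (R i) x * (1 + |(x : ℝ)|) ^ 2) := by
            refine (mul_le_mul_of_nonneg_left h10 (norm_nonneg _)).trans (h9.trans ?_)
            refine mul_le_mul_of_nonneg_right ?_ (by positivity)
            have := hs0 i
            have := hs1 i
            have h12 : s i * ε ≤ 1 := by nlinarith
            nlinarith
          have h13 : ‖g i x‖ ≤ C * pw P (R i) x * ((1 + |(x : ℝ)|) ^ 2)⁻¹ := by
            rw [← div_eq_mul_inv, le_div_iff₀ (by positivity)]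
            have h14 : 0 < (1 + |(x : ℝ)|) ^ 2 := by positivity
            refine le_of_mul_le_mul_right ?_ h14
            calc ‖g i x‖ * (1 + |(x : ℝ)|) ^ 2 * (1 + |(x : ℝ)|) ^ 2
                = ‖g i x‖ * (1 + |(x : ℝ)|) ^ 4 := by ring
              _ ≤ C * (pw P (R i) x * (1 + |(x : ℝ)|) ^ 2) := h11
              _ = C * pw P (R i) x * (1 + |(x : ℝ)|) ^ 2 := by ring
          refine h13.trans (mul_le_mul_of_nonneg_left ?_ (by positivity))
          exact le_mul_of_one_le_left (by positivity) hB1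
      have hp0 := hpwpos i x
      rw [norm_mul]
      calc ‖f i (x - k)‖ * ‖g i x‖
          ≤ ‖f i (x - k)‖ * (C * pw P (R i) x * (B * ((1 + |(x : ℝ)|) ^ 2)⁻¹)) :=
            mul_le_mul_of_nonneg_left hgx (norm_nonneg _)
        _ ≤ ‖f i (x - k)‖ * (C * (L ^ k.natAbs * pw P (R i) (x - k)) *
              (B * ((1 + |(x : ℝ)|) ^ 2)⁻¹)) := by
            refine mul_le_mul_of_nonneg_left ?_ (norm_nonneg _)
            refine mul_le_mul_of_nonneg_right ?_ (by positivity)
            exact mul_le_mul_of_nonneg_left hratio hC0.le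
        _ = (‖f i (x - k)‖ * pw P (R i) (x - k)) * (C * L ^ k.natAbs * B *
              ((1 + |(x : ℝ)|) ^ 2)⁻¹) := by ring
        _ ≤ C * (C * L ^ k.natAbs * B * ((1 + |(x : ℝ)|) ^ 2)⁻¹) :=
            mul_le_mul_of_nonneg_right hfx (by positivity)
        _ = C * C * L ^ k.natAbs * B * ((1 + |(x : ℝ)|) ^ 2)⁻¹ := by ring
    have hsum : Summable fun x : ℤ => C * C * L ^ k.natAbs * B * ((1 + |(x : ℝ)|) ^ 2)⁻¹ :=
      summable_inv_sq.mul_left _
    have hpt : ∀ x, Tendsto (fun j => a j x) atTop (𝓝 (f' (x - k) * g' x)) := by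
      intro x
      refine ((hlimf (x - k)).mul (hlimg x)).congr' ?_
      filter_upwards [hev |x|] with j hj
      have hI : x ∈ Finset.Ico (-2 * R (φ j)) (2 * R (φ j)) := by
        rw [Finset.mem_Ico]
        have := hRpos (φ j)
        have := abs_le.1 hj
        omega
      rw [ha, if_pos hI]
    have hlim2 := tendsto_tsum_of_dominated_convergence hsum hpt
      (Eventually.of_forall fun j x => hbound j x)
    have hzero : ∀ j, ∑' x, a j x = 0 := by
      intro j
      rw [tsum_eq_sum (s := Finset.Ico (-2 * R (φ j)) (2 * R (φ j)))]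
      · rw [← horth (φ j) k]
        refine Finset.sum_congr rfl fun x hx => ?_
        rw [ha, if_pos hx]
      · intro x hx
        rw [ha, if_neg hx]
    simp only [hzero] at hlim2
    exact (tendsto_nhds_unique tendsto_const_nhds hlim2).symm
  -- conclusion
  have hfne : ∃ n, f' n ≠ 0 := by
    by_contra hno
    push Not at hno
    have : ‖f' 0‖ + ∑ e ∈ E, ‖f' e‖ * P e = 0 := by simp [hno]
    linarith
  have hfC : ∀ n : ℤ, ‖f' n‖ * (P n * (1 + |(n : ℝ)|) ^ 2) ≤ C * C := fun n =>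
    (r1 n).trans (by nlinarith)
  by_cases hg00 : g' 0 = 0
  · have hs' : s' = 0 := by
      rw [hg00, norm_zero, mul_zero] at r4
      exact le_antisymm r4 r0
    refine ⟨f', g', hfne, hfC, r6, Or.inl ⟨fun n hn => ?_, ?_⟩⟩
    · by_cases hn0 : n = 0
      · rw [hn0]; exact hg00
      · have h15 := r3 n hn hn0
        rw [hs', zero_mul, zero_mul, zero_mul] at h15
        have h16 : 0 < (1 + |(n : ℝ)|) ^ E.card := by
          have := hone1 n
          positivity
        have h17 : ‖g' n‖ ≤ 0 := by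
          by_contra hlt
          push Not at hlt
          have := mul_pos hlt h16
          linarith
        exact norm_le_zero_iff.1 h17
    · by_contra hno
      push Not at hno
      have : ∑ e ∈ E, ‖g' e‖ / P e = 0 :=
        Finset.sum_eq_zero fun e he => by rw [hno e he]; simp
      rw [this, hs'] at r5
      linarith
  · have hg0pos : 0 < ‖g' 0‖ := norm_pos_iff.2 hg00
    refine ⟨f', fun n => (g' 0)⁻¹ * g' n, hfne, hfC, fun k => ?_, Or.inr ⟨?_, fun n hn hn0 => ?_⟩⟩
    · have : ∀ m, f' (m - k) * ((g' 0)⁻¹ * g' m) = (g' 0)⁻¹ * (f' (m - k) * g' m) := fun m => by ring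
      simp only [this]
      rw [tsum_mul_left, r6 k, mul_zero]
    · exact inv_mul_cancel₀ hg00
    · have hPn := hP n
      have hr := hone1 n
      have h15 := r3 n hn hn0
      rw [norm_mul, norm_inv]
      have h18 : s' * ‖g' 0‖⁻¹ ≤ C := by
        rw [← div_eq_mul_inv, div_le_iff₀ hg0pos]
        exact r4
      calc ‖g' 0‖⁻¹ * ‖g' n‖ * (1 + |(n : ℝ)|) ^ E.card
          = ‖g' 0‖⁻¹ * (‖g' n‖ * (1 + |(n : ℝ)|) ^ E.card) := by ring
        _ ≤ ‖g' 0‖⁻¹ * (s' * ε * C * (P n * (1 + |(n : ℝ)|) ^ 2)) :=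
            mul_le_mul_of_nonneg_left h15 (by positivity)
        _ = (s' * ‖g' 0‖⁻¹) * (ε * C * (P n * (1 + |(n : ℝ)|) ^ 2)) := by ring
        _ ≤ C * (ε * C * (P n * (1 + |(n : ℝ)|) ^ 2)) :=
            mul_le_mul_of_nonneg_right h18 (by positivity)
        _ = ε * (C * C) * (P n * (1 + |(n : ℝ)|) ^ 2) := by ring

end Pool.Agent.BShift
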