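import Pool.Agent.Lib_helper94.BShift.Defs

/-!
# Module HIS: a hyperinvariant subspace from two orthogonal sequences
-/

set_option autoImplicit false

namespace Pool.Agent.BShift

universe u

variable {X : Type u} [NormedAddCommGroup X] [NormedSpace ℂ X]

/-- The orbit of `x` under the commutant of `T`. -/
def orbitComm (T : X →L[ℂ] X) (x : X) : Submodule ℂ X where
  carrier := {y | ∃ A : X →L[ℂ] X, A * T = T * A ∧ y = A x}
  add_mem' := by
    rintro _ _ ⟨A, hA, rfl⟩ ⟨B, hB, rfl⟩
    exact ⟨A + B, by rw [add_mul, mul_add, hA, hB], rfl⟩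
  zero_mem' := ⟨0, by rw [zero_mul, mul_zero], rfl⟩
  smul_mem' := by
    rintro c _ ⟨A, hA, rfl⟩
    exact ⟨c • A, by rw [smul_mul_assoc, mul_smul_comm, hA], rfl⟩

/-- The closure of the orbit gives a hyperinvariant subspace as soon as a nonzero functional
vanishes on the orbit. -/
theorem hasHIS_of_orbit (T : X →L[ℂ] X) (x : X) (hx : x ≠ 0) (φ : X →L[ℂ] ℂ) (hφ : φ ≠ 0)
    (h : ∀ A : X →L[ℂ] X, A * T = T * A → φ (A x) = 0) : HasHIS T := by
  refine ⟨(orbitComm T x).topologicalClosure, Submodule.isClosed_topologicalClosure _, ?_, ?_, ?_⟩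
  · intro hbot
    have h1 : x ∈ (orbitComm T x).topologicalClosure :=
      Submodule.le_topologicalClosure _ ⟨1, by rw [one_mul, mul_one], rfl⟩
    rw [hbot, Submodule.mem_bot] at h1
    exact hx h1
  · intro htop
    apply hφ
    ext y
    have h1 : (orbitComm T x).topologicalClosure ≤ LinearMap.ker (φ : X →ₗ[ℂ] ℂ) := by
      refine Submodule.topologicalClosure_minimal _ ?_ φ.isClosed_ker
      rintro _ ⟨A, hA, rfl⟩
      exact h A hA
    have h2 : y ∈ (orbitComm T x).topologicalClosure := by rw [htop]; exact Submodule.mem_top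
    exact h1 h2
  · intro A hA y hy
    have h1 : Set.MapsTo A (orbitComm T x : Set X) (orbitComm T x : Set X) := by
      rintro _ ⟨B, hB, rfl⟩
      exact ⟨A * B, by rw [mul_assoc, hB, ← mul_assoc, hA, mul_assoc], rfl⟩
    exact h1.closure A.continuous hy



theorem coeff_shift (T A : X →L[ℂ] X) (hA : A * T = T * A) (u : ℤ → X)
    (v : ℤ → (X →L[ℂ] ℂ)) (hu : ∀ n, T (u n) = u (n + 1)) (hv : ∀ n, (v (n + 1)).comp T = v n)
    (j : ℤ) : ∀ m : ℤ, v m (A (u (m + j))) = v 0 (A (u j)) := by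
  have step : ∀ m : ℤ, v (m + 1) (A (u (m + 1 + j))) = v m (A (u (m + j))) := by
    intro m
    have h1 : u (m + 1 + j) = T (u (m + j)) := by
      rw [hu]
      congr 1
      ring
    have h2 : A (T (u (m + j))) = T (A (u (m + j))) := by
      have := DFunLike.congr_fun hA (u (m + j))
      exact this
    rw [h1, h2, ← hv m]
    rfl
  intro m
  induction m using Int.induction_on with
  | zero => rw [zero_add]
  | succ i ih => rw [step, ih]
  | pred i ih =>
    rw [← ih, ← step (-(i : ℤ) - 1)]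
    rw [show (-(i : ℤ) - 1 + 1) = -(i : ℤ) by ring]

theorem pairHIS : PairHIS.{u} := by
  intro X _ _ _ T u v f g hu hv hf hg horth hx hφ
  have hfs : Summable (fun n => f n • u n) := Summable.of_norm (by simpa [norm_smul] using hf)
  have hgs : Summable (fun n => g n • v n) := Summable.of_norm (by simpa [norm_smul] using hg)
  refine hasHIS_of_orbit T _ hx _ hφ ?_
  intro A hA
  -- the double sum
  set G : ℤ × ℤ → ℂ := fun p => g p.1 * (f p.2 * v p.1 (A (u p.2))) with hG
  have hGs : Summable G := by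
    have h1 : Summable (fun p : ℤ × ℤ => (‖g p.1‖ * ‖v p.1‖) * (‖f p.2‖ * ‖u p.2‖)) :=
      Summable.mul_of_nonneg hg hf (fun n => mul_nonneg (norm_nonneg _) (norm_nonneg _))
        (fun n => mul_nonneg (norm_nonneg _) (norm_nonneg _))
    refine Summable.of_norm_bounded (h1.mul_left ‖A‖) ?_
    rintro ⟨m, n⟩
    simp only [hG, norm_mul]
    have h2 : ‖v m (A (u n))‖ ≤ ‖v m‖ * (‖A‖ * ‖u n‖) :=
      ((v m).le_opNorm _).trans (mul_le_mul_of_nonneg_left (A.le_opNorm _) (norm_nonneg _))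
    calc ‖g m‖ * (‖f n‖ * ‖v m (A (u n))‖)
        ≤ ‖g m‖ * (‖f n‖ * (‖v m‖ * (‖A‖ * ‖u n‖))) := by gcongr
      _ = ‖A‖ * (‖g m‖ * ‖v m‖ * (‖f n‖ * ‖u n‖)) := by ring
  have hval : (∑' n : ℤ, g n • v n) (A (∑' n : ℤ, f n • u n)) = ∑' p, G p := by
    have h1 : ∀ y : X, (∑' n : ℤ, g n • v n) y = ∑' n : ℤ, g n * v n y := by
      intro y
      have := (ContinuousLinearMap.apply ℂ ℂ y).map_tsum hgs
      simpa using this
    have h2 : ∀ m : ℤ, v m (A (∑' n : ℤ, f n • u n)) = ∑' n : ℤ, f n * v m (A (u n)) := by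
      intro m
      have := ((v m).comp A).map_tsum hfs
      simpa using this
    rw [h1, hGs.tsum_prod]
    refine tsum_congr fun m => ?_
    rw [h2, ← tsum_mul_left]
  rw [hval]
  -- reparametrisation
  let e : ℤ × ℤ ≃ ℤ × ℤ :=
    { toFun := fun p => (p.2, p.2 - p.1)
      invFun := fun p => (p.1 - p.2, p.1)
      left_inv := by rintro ⟨a, b⟩; simp
      right_inv := by rintro ⟨a, b⟩; simp }
  rw [← e.tsum_eq G]
  have hGe : Summable (fun p => G (e p)) := (e.summable_iff (f := G)).2 hGs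
  rw [hGe.tsum_prod]
  have h0 : ∀ k : ℤ, ∑' m : ℤ, G (e (k, m)) = 0 := by
    intro k
    have h1 : ∀ m : ℤ, G (e (k, m)) = v 0 (A (u (-k))) * (f (m - k) * g m) := by
      intro m
      have h2 := coeff_shift T A hA u v hu hv (-k) m
      show g m * (f (m - k) * v m (A (u (m - k)))) = _
      rw [sub_eq_add_neg, h2]
      ring
    simp only [h1]
    rw [tsum_mul_left, horth k, mul_zero]
  simp only [h0, tsum_zero]

end Pool.Agent.BShift
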