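import Pool.Agent.Lib_helper94.BShift.Finite
import Pool.Agent.Lib_helper94.BShift.Geometry
import Pool.Agent.Lib_helper94.BShift.Level
import Pool.Agent.Lib_helper94.BShift.Pair
import Pool.Agent.Lib_helper94.BShift.PairHIS
import Pool.Agent.Lib_helper94.BShift.Nonvan
import Pool.Agent.Lib_helper94.BShift.Criterion
import Pool.Agent.Lib_helper94.BShift.Block
import Pool.Agent.Lib_helper94.BShift.Lp

set_option autoImplicit false

namespace Pool.Agent.BShift

theorem final_pair : PairStmt := pair geometry (level abstractFinite geometry)

theorem final_criterion.{u} : CriterionStmt.{u} := criterion pairHIS (nonvan final_pair)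

theorem final_dual.{u} : DualCriterionStmt.{u} := dualCriterion pairHIS (nonvan final_pair)

theorem final_block.{u, v} : BlockStmt.{u, v} := block final_criterion

theorem final_lp.{v} : LpStmt.{v} := lpStmt final_block

theorem final_invertible.{u} : InvertibleStmt.{u} := invertible final_criterion final_dual

end Pool.Agent.BShift
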