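import Pool.Agent.Lib_helper94.BShift.Defs

set_option autoImplicit false

namespace Pool.Agent.BShift

open Polynomial

/-- Duality for a weighted maximum norm in finite dimension. -/
theorem weighted_duality {N : Type} [Fintype N] [DecidableEq N] (W : Submodule ℂ (N → ℂ))
    (ω : N → ℝ) (hω : ∀ n, 0 < ω n) (i0 : N) (h0 : ω i0 = 1) (ε : ℝ) (hε : 0 < ε)
    (hW : ∀ f ∈ W, (∀ n, ‖f n‖ * ω n ≤ 1) → ‖f i0‖ < ε) :
    ∃ γ : N → ℂ, (∀ n, ‖γ n‖ ≤ ε * ω n) ∧ ∀ f ∈ W, ∑ n, γ n * f n = f i0 := by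
  classical
  let Φ : (N → ℂ) →ₗ[ℂ] (N → ℂ) := LinearMap.pi fun n => (ω n : ℂ) • LinearMap.proj n
  have hΦ : ∀ f n, Φ f n = (ω n : ℂ) * f n := fun f n => by
    simp [Φ]
  let W' : Submodule ℂ (N → ℂ) := W.map Φ
  let ℓ : W' →ₗ[ℂ] ℂ := (LinearMap.proj i0).comp W'.subtype
  have hℓ : ∀ F : W', ‖ℓ F‖ ≤ ε * ‖F‖ := by
    rintro ⟨F, hF⟩
    obtain ⟨f, hf, rfl⟩ := hF
    change ‖Φ f i0‖ ≤ ε * ‖Φ f‖
    by_cases hz : ‖Φ f‖ = 0
    · have : Φ f = 0 := norm_eq_zero.mp hz
      rw [this]; simp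
    · have hpos : 0 < ‖Φ f‖ := lt_of_le_of_ne (norm_nonneg _) (Ne.symm hz)
      have h1 := hW (((‖Φ f‖)⁻¹ : ℂ) • f) (W.smul_mem _ hf) (by
        intro n
        have h2 : ‖Φ f n‖ ≤ ‖Φ f‖ := norm_le_pi_norm _ n
        rw [hΦ, norm_mul, Complex.norm_real, Real.norm_of_nonneg (hω n).le] at h2
        rw [Pi.smul_apply, smul_eq_mul, norm_mul, norm_inv, Complex.norm_real, norm_norm]
        rw [inv_mul_eq_div, div_mul_eq_mul_div, div_le_one hpos, mul_comm]
        exact h2)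
      rw [Pi.smul_apply, smul_eq_mul, norm_mul, norm_inv, Complex.norm_real, norm_norm,
        inv_mul_eq_div, div_lt_iff₀ hpos] at h1
      rw [hΦ, h0]
      simpa using h1.le
  obtain ⟨G, hG1, hG2⟩ := exists_extension_norm_eq (W' : Submodule ℂ (N → ℂ))
    (ℓ.mkContinuous ε hℓ)
  have hGn : ‖G‖ ≤ ε := by
    rw [hG2]; exact LinearMap.mkContinuous_norm_le _ hε.le _
  refine ⟨fun n => (ω n : ℂ) * G (Pi.single n 1), ?_, ?_⟩
  · intro n
    rw [norm_mul, Complex.norm_real, Real.norm_of_nonneg (hω n).le, mul_comm]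
    refine mul_le_mul_of_nonneg_right ?_ (hω n).le
    refine (G.le_opNorm _).trans ?_
    have : ‖(Pi.single n (1 : ℂ) : N → ℂ)‖ ≤ 1 := by
      rw [pi_norm_le_iff_of_nonneg zero_le_one]
      intro j
      by_cases hj : j = n
      · subst hj; simp
      · simp [Pi.single_eq_of_ne hj]
    calc ‖G‖ * ‖(Pi.single n (1 : ℂ) : N → ℂ)‖ ≤ ε * 1 :=
          mul_le_mul hGn this (norm_nonneg _) hε.le
      _ = ε := mul_one _
  · intro f hf
    have h1 : G (Φ f) = Φ f i0 := hG1 ⟨Φ f, ⟨f, hf, rfl⟩⟩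
    have h2 : Φ f = ∑ n, (Φ f n) • (Pi.single n (1 : ℂ) : N → ℂ) := by
      funext j
      rw [Finset.sum_apply, Finset.sum_eq_single j]
      · simp
      · intro b _ hb
        simp [Pi.single_eq_of_ne (Ne.symm hb)]
      · intro h; exact absurd (Finset.mem_univ _) h
    have h3 : G (Φ f) = ∑ n, (Φ f n) * G (Pi.single n (1 : ℂ)) := by
      conv_lhs => rw [h2]
      rw [map_sum]
      refine Finset.sum_congr rfl fun n _ => ?_
      rw [map_smul, smul_eq_mul]
    rw [h3, hΦ, h0] at h1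
    have h4 : ∑ n, (ω n : ℂ) * G (Pi.single n 1) * f n = ∑ n, (Φ f n) * G (Pi.single n (1 : ℂ)) := by
      refine Finset.sum_congr rfl fun n _ => ?_
      rw [hΦ]; ring
    rw [h4, h1]; simp

/-- The free site step. -/
theorem free_step (I : Finset ℤ) (z : ℤ → ℂ) (hz : Set.InjOn z (I : Set ℤ)) (d : ℕ)
    (g : ℤ → ℂ) (hg : ∀ r : ℂ[X], r.degree < (d : WithBot ℕ) → ∑ x ∈ I, g x * r.eval (z x) = 0)
    (e : ℤ) (heI : e ∈ I) (he : g e = 0) :
    ∃ g' : ℤ → ℂ, (∀ r : ℂ[X], r.degree < ((d + 1 : ℕ) : WithBot ℕ) →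
      ∑ x ∈ I, g' x * r.eval (z x) = 0) ∧ (∀ a ∈ I, a ≠ e → g' a * (z a - z e) = g a) := by
  classical
  refine ⟨fun a => if a = e then - ∑ x ∈ I.erase e, g x / (z x - z e) else g a / (z a - z e),
    ?_, ?_⟩
  · intro r hr
    set r1 : ℂ[X] := r /ₘ (X - C (z e)) with hr1
    have hdec : ∀ t : ℂ, r.eval t = (t - z e) * r1.eval t + r.eval (z e) := by
      intro t
      have h1 := modByMonic_add_div r (X - C (z e))
      rw [modByMonic_X_sub_C_eq_C_eval] at h1
      have h2 := congrArg (Polynomial.eval t) h1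
      rw [eval_add, eval_mul, eval_sub, eval_X, eval_C, eval_C] at h2
      rw [← h2]; ring
    have hdeg : r1.degree < (d : WithBot ℕ) := by
      by_cases hr0 : r = 0
      · rw [hr1, hr0, zero_divByMonic, degree_zero]
        exact WithBot.bot_lt_coe d
      · have h1 : r1.degree < r.degree :=
          degree_divByMonic_lt r _ hr0 (by rw [degree_X_sub_C]; norm_num)
        have h2 : r.degree ≤ (d : WithBot ℕ) := by
          rw [degree_eq_natDegree hr0] at hr ⊢
          have : r.natDegree < d + 1 := by exact_mod_cast hr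
          exact_mod_cast Nat.lt_succ_iff.mp this
        exact lt_of_lt_of_le h1 h2
    have h3 := hg r1 hdeg
    rw [← Finset.add_sum_erase I _ heI] at h3 ⊢
    rw [he, zero_mul, zero_add] at h3
    beta_reduce
    rw [if_pos rfl, neg_mul, Finset.sum_mul]
    have h4 : ∑ x ∈ I.erase e, (if x = e then - ∑ x ∈ I.erase e, g x / (z x - z e)
        else g x / (z x - z e)) * r.eval (z x)
        = ∑ x ∈ I.erase e, (g x * r1.eval (z x) + g x / (z x - z e) * r.eval (z e)) := by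
      refine Finset.sum_congr rfl fun x hx => ?_
      have hxe : x ≠ e := (Finset.mem_erase.mp hx).1
      have hxI : x ∈ I := (Finset.mem_erase.mp hx).2
      have hne : z x - z e ≠ 0 := by
        intro h
        exact hxe (hz hxI heI (sub_eq_zero.mp h))
      rw [if_neg hxe, hdec (z x)]
      field_simp
    rw [h4, Finset.sum_add_distrib, h3]
    ring
  · intro a ha hae
    have hne : z a - z e ≠ 0 := by
      intro h
      exact hae (hz ha heI (sub_eq_zero.mp h))
    simp only [if_neg hae]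
    field_simp

theorem abstractFinite : AbstractFinite := by
  classical
  intro I E z ω i0 ε hz hEI hEne hi0 hi0E hω hω0 hε hε1
  let α : ℕ → Prop := fun d => ∃ q : ℂ[X], q.degree < (d : WithBot ℕ) ∧
    (∀ n ∈ I, n ∉ E → ‖q.eval (z n)‖ * ω n ≤ 1) ∧ ε ≤ ‖q.eval (z i0)‖
  have hzN : Set.InjOn z ((I \ E : Finset ℤ) : Set ℤ) :=
    hz.mono (by intro x hx; exact (Finset.mem_sdiff.mp hx).1)
  have hex : ∃ d, α d := by
    refine ⟨(I \ E).card, Lagrange.interpolate (I \ E) z (fun n => if n = i0 then 1 else 0),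
      Lagrange.degree_interpolate_lt _ hzN, ?_, ?_⟩
    · intro n hn hnE
      rw [Lagrange.eval_interpolate_at_node _ hzN (Finset.mem_sdiff.mpr ⟨hn, hnE⟩)]
      by_cases h : n = i0
      · subst h; simp [hω0]
      · simp [h]
    · rw [Lagrange.eval_interpolate_at_node _ hzN (Finset.mem_sdiff.mpr ⟨hi0, hi0E⟩)]
      simpa using hε1
  have h0 : ¬ α 0 := by
    rintro ⟨q, hq, -, hq2⟩
    have : q = 0 := by
      by_contra hne
      rw [degree_eq_natDegree hne] at hq
      have : q.natDegree < 0 := by exact_mod_cast hq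
      omega
    rw [this] at hq2
    simp at hq2
    linarith
  obtain ⟨m, hm1, hm2⟩ : ∃ m, ¬ α m ∧ α (m + 1) := by
    have h1 : Nat.find hex ≠ 0 := by
      intro h
      exact h0 (h ▸ Nat.find_spec hex)
    obtain ⟨m, hm⟩ := Nat.exists_eq_succ_of_ne_zero h1
    refine ⟨m, Nat.find_min hex (by omega), ?_⟩
    have := Nat.find_spec hex
    rwa [hm] at this
  obtain ⟨q, hq1, hq2, hq3⟩ := hm2
  -- duality
  let N : Finset ℤ := I \ E
  let ev : ℂ[X] →ₗ[ℂ] (N → ℂ) := LinearMap.pi fun n => Polynomial.leval (z n)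
  have hev : ∀ r (n : N), ev r n = r.eval (z n) := fun r n => rfl
  have hi0N : i0 ∈ N := Finset.mem_sdiff.mpr ⟨hi0, hi0E⟩
  obtain ⟨γ, hγ1, hγ2⟩ := weighted_duality ((degreeLT ℂ m).map ev) (fun n : N => ω n)
    (fun n => hω n (Finset.mem_sdiff.mp n.2).1) ⟨i0, hi0N⟩ hω0 ε hε (by
      rintro f ⟨r, hr, rfl⟩ hf
      by_contra hcon
      refine hm1 ⟨r, mem_degreeLT.mp hr, ?_, ?_⟩
      · intro n hn hnE
        exact hf ⟨n, Finset.mem_sdiff.mpr ⟨hn, hnE⟩⟩
      · exact not_lt.mp hcon)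
  let γ' : ℤ → ℂ := fun n => if h : n ∈ N then γ ⟨n, h⟩ else 0
  let h : ℤ → ℂ := fun n => (if n = i0 then 1 else 0) - γ' n
  have hh1 : ∀ n ∈ I, n ∉ E → n ≠ i0 → ‖h n‖ ≤ ε * ω n := by
    intro n hn hnE hne
    have hnN : n ∈ N := Finset.mem_sdiff.mpr ⟨hn, hnE⟩
    simp only [h, γ', if_neg hne, dif_pos hnN, zero_sub, norm_neg]
    exact hγ1 ⟨n, hnN⟩
  have hh2 : ‖h i0 - 1‖ ≤ ε := by
    simp only [h, γ', if_true, dif_pos hi0N]
    have := hγ1 ⟨i0, hi0N⟩
    rw [hω0, mul_one] at this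
    simpa using this
  have hann : ∀ r : ℂ[X], r.degree < (m : WithBot ℕ) → ∑ x ∈ N, h x * r.eval (z x) = 0 := by
    intro r hr
    have h1 := hγ2 (ev r) ⟨r, mem_degreeLT.mpr hr, rfl⟩
    have h2 : ∑ x ∈ N, γ' x * r.eval (z x) = r.eval (z i0) := by
      rw [← Finset.sum_coe_sort N]
      rw [hev] at h1
      rw [← h1]
      refine Finset.sum_congr rfl fun n _ => ?_
      simp only [γ', dif_pos n.2, hev]
    have h3 : ∑ x ∈ N, (if x = i0 then (1 : ℂ) else 0) * r.eval (z x) = r.eval (z i0) := by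
      rw [Finset.sum_eq_single i0]
      · simp
      · intro b _ hb; simp [hb]
      · intro hc; exact absurd hi0N hc
    simp only [h, sub_mul, Finset.sum_sub_distrib]
    rw [h2, h3, sub_self]
  have key : ∀ E₁ : Finset ℤ, E₁ ⊆ E → ∃ g : ℤ → ℂ,
      (∀ r : ℂ[X], r.degree < ((m + E₁.card : ℕ) : WithBot ℕ) →
        ∑ x ∈ I, g x * r.eval (z x) = 0) ∧
      (∀ n ∈ I, n ∉ E → g n * ∏ e ∈ E₁, (z n - z e) = h n) ∧
      (∀ n ∈ E, n ∉ E₁ → g n = 0) := by
    intro E₁
    induction E₁ using Finset.induction_on with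
    | empty =>
      intro _
      refine ⟨fun n => if n ∈ E then 0 else h n, ?_, ?_, ?_⟩
      · intro r hr
        have h1 := hann r (by simpa using hr)
        rw [← Finset.sum_sdiff hEI]
        have h2 : ∑ x ∈ E, (if x ∈ E then (0 : ℂ) else h x) * r.eval (z x) = 0 :=
          Finset.sum_eq_zero fun x hx => by simp [hx]
        beta_reduce
        rw [h2, add_zero, ← h1]
        refine Finset.sum_congr rfl fun x hx => ?_
        rw [if_neg (Finset.mem_sdiff.mp hx).2]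
      · intro n hn hnE
        simp [hnE]
      · intro n hn _
        simp [hn]
    | insert e E₁ he ih =>
      intro hsub
      obtain ⟨g, hg1, hg2, hg3⟩ := ih (fun x hx => hsub (Finset.mem_insert_of_mem hx))
      have heE : e ∈ E := hsub (Finset.mem_insert_self _ _)
      obtain ⟨g', hg'1, hg'2⟩ := free_step I z hz (m + E₁.card) g hg1 e (hEI heE) (hg3 e heE he)
      refine ⟨g', ?_, ?_, ?_⟩
      · intro r hr
        refine hg'1 r ?_
        rwa [Finset.card_insert_of_notMem he, ← add_assoc] at hr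
      · intro n hn hnE
        have hne : n ≠ e := fun hc => hnE (hc ▸ heE)
        rw [Finset.prod_insert he, ← mul_assoc, hg'2 n hn hne, hg2 n hn hnE]
      · intro n hn hn1
        rw [Finset.mem_insert, not_or] at hn1
        have h1 := hg'2 n (hEI hn) hn1.1
        rw [hg3 n hn hn1.2] at h1
        rcases mul_eq_zero.mp h1 with h2 | h2
        · exact h2
        · exact absurd (hz (hEI hn) (hEI heE) (sub_eq_zero.mp h2)) hn1.1
  obtain ⟨g, hg1, hg2, -⟩ := key E (Finset.Subset.refl _)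
  exact ⟨m, q, g, h, hq1, hq2, hq3, hg1, hg2, hh1, hh2⟩

end Pool.Agent.BShift
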